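import Pool.Agent.H37.HardCore

set_option autoImplicit false
set_option linter.unusedSectionVars false

/-!
Hard-core (partial placement) measure with lists and vertex dependent activities.
-/

namespace Pool.Agent.H37.HC

open Finset
open Pool.Agent.H37.Hard (nb mem_nb conf mem_conf avail mem_avail blk mem_blk un conf_mono
  update_none_mem update_some_mem)

variable {W U : Type*} [Fintype W] [Fintype U] [DecidableEq W] [DecidableEq U]

/-- weight of a partial placement -/
noncomputable def wt (l : W → ℝ) (f : W → Option U) : ℝ :=
  ∏ w, (if f w = none then (1 : ℝ) else l w)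

/-- partition function -/
noncomputable def Z (G : SimpleGraph W) (T : SimpleGraph U) (L : W → Finset U) (l : W → ℝ)
    (B : Finset W) : ℝ := ∑ f ∈ conf G T L B, wt l f

variable {G : SimpleGraph W} {T : SimpleGraph U} {L : W → Finset U} {l : W → ℝ}

lemma wt_pos (hl : ∀ w, 0 < l w) (f : W → Option U) : 0 < wt l f := by
  unfold wt
  apply Finset.prod_pos
  intro w _
  split_ifs
  · norm_num
  · exact hl w

lemma wt_nonneg (hl : ∀ w, 0 < l w) (f : W → Option U) : 0 ≤ wt l f := (wt_pos hl f).le

lemma wt_update_some {f : W → Option U} {w : W} (hw : f w = none) (u : U) :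
    wt l (Function.update f w (some u)) = l w * wt l f := by
  unfold wt
  rw [← Finset.mul_prod_erase univ _ (mem_univ w), ← Finset.mul_prod_erase univ
    (fun w' => if f w' = none then (1 : ℝ) else l w') (mem_univ w)]
  simp only [Function.update_self, hw, if_true, one_mul]
  have : (if (some u : Option U) = none then (1 : ℝ) else l w) = l w := by simp
  rw [this]
  congr 1
  apply Finset.prod_congr rfl
  intro y hy
  rw [Function.update_of_ne (Finset.ne_of_mem_erase hy)]

lemma Z_pos (hl : ∀ w, 0 < l w) (B : Finset W) : 0 < Z G T L l B := by
  unfold Z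
  apply Finset.sum_pos (fun f _ => wt_pos hl f)
  refine ⟨fun _ => none, ?_⟩
  rw [mem_conf]
  simp

/-- the fibre of a configuration over the removal of `w` -/
lemma fiber_insert {B : Finset W} {w : W} (hw : w ∉ B) {f : W → Option U}
    (hf : f ∈ conf G T L B) :
    (conf G T L (insert w B)).filter (fun i => Function.update i w none = f) =
      (Finset.insertNone (avail G T L f w)).image (fun a => Function.update f w a) := by
  have hfw : f w = none := (mem_conf.1 hf).1 w hw
  have hself : Function.update f w none = f := by
    rw [← hfw]; exact Function.update_eq_self w f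
  ext i
  rw [Finset.mem_filter, Finset.mem_image]
  constructor
  · rintro ⟨hi, hif⟩
    refine ⟨i w, ?_, ?_⟩
    · rw [Finset.mem_insertNone]
      intro u hu
      rw [Option.mem_def] at hu
      rw [mem_avail]
      rw [mem_conf] at hi
      refine ⟨hi.2.1 w u hu, ?_⟩
      intro y hadj u' hu'
      rw [← hif, Function.update_of_ne hadj.ne'] at hu'
      exact hi.2.2 y w hadj.symm u' u hu' hu
    · rw [← hif, Function.update_idem]
      exact Function.update_eq_self w i
  · rintro ⟨a, ha, rfl⟩
    constructor
    · cases a with
      | none => rw [hself]; exact conf_mono (Finset.subset_insert w B) hf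
      | some u => exact update_some_mem hf (by simpa using ha)
    · rw [Function.update_idem]; exact hself

/-- inserting a vertex, with an observable that does not depend on the vertex -/
lemma sum_insert (_hl : ∀ w, 0 < l w) {B : Finset W} {w : W} (hw : w ∉ B)
    (E : (W → Option U) → ℝ) (hE : ∀ f a, E (Function.update f w a) = E f) :
    ∑ f ∈ conf G T L (insert w B), wt l f * E f =
      ∑ f ∈ conf G T L B, wt l f * E f * (1 + l w * ((avail G T L f w).card : ℝ)) := by
  rw [← Finset.sum_fiberwise_of_maps_to (s := conf G T L (insert w B)) (t := conf G T L B)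
    (g := fun f => Function.update f w none) (fun f hf => update_none_mem hf)]
  apply Finset.sum_congr rfl
  intro f hf
  have hfw : f w = none := (mem_conf.1 hf).1 w hw
  have hself : Function.update f w none = f := by
    rw [← hfw]; exact Function.update_eq_self w f
  rw [fiber_insert hw hf, Finset.sum_image]
  · rw [Finset.sum_insertNone]
    have h2 : ∑ x ∈ avail G T L f w, wt l (Function.update f w (some x)) *
        E (Function.update f w (some x)) = ∑ x ∈ avail G T L f w, l w * wt l f * E f :=
      Finset.sum_congr rfl (fun x _ => by rw [wt_update_some hfw x, hE])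
    rw [h2, hself, Finset.sum_const, nsmul_eq_mul]
    ring
  · intro a _ b _ hab
    have := congrFun hab w
    simpa using this

lemma Z_insert (hl : ∀ w, 0 < l w) {B : Finset W} {w : W} (hw : w ∉ B) :
    Z G T L l (insert w B) = Z G T L l B +
      l w * ∑ f ∈ conf G T L B, wt l f * ((avail G T L f w).card : ℝ) := by
  have h := sum_insert (G := G) (T := T) (L := L) hl hw (fun _ => 1) (fun _ _ => rfl)
  unfold Z
  simp only [mul_one] at h
  rw [h, Finset.mul_sum, ← Finset.sum_add_distrib]
  apply Finset.sum_congr rfl
  intro f _
  ring

end Pool.Agent.H37.HC
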