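import Pool.Agent.H37.HC.Ratio

set_option autoImplicit false
set_option linter.unusedSectionVars false

/-!
The doubled pattern: every vertex gets two twins which are placed in a reserved set `R`.
-/

namespace Pool.Agent.H37.HC

open Finset
open Pool.Agent.H37.Hard (nb mem_nb conf mem_conf avail mem_avail blk mem_blk avail_eq_filter
  update_none_mem)

section

variable {W U : Type*} [Fintype W] [Fintype U] [DecidableEq W] [DecidableEq U]

/-- the doubled pattern -/
def dbl (G : SimpleGraph W) : SimpleGraph (W × Fin 3) where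
  Adj a b := G.Adj a.1 b.1 ∧ (a.2 = 0 ∨ b.2 = 0)
  symm := ⟨fun _ _ h => ⟨h.1.symm, h.2.symm⟩⟩
  loopless := ⟨fun _ h => G.loopless.irrefl _ h.1⟩

lemma dbl_adj {G : SimpleGraph W} {a b : W × Fin 3} :
    (dbl G).Adj a b ↔ G.Adj a.1 b.1 ∧ (a.2 = 0 ∨ b.2 = 0) := Iff.rfl

/-- lists of the doubled pattern -/
def dl (L : W → Finset U) (R : Finset U) : W × Fin 3 → Finset U :=
  fun p => if p.2 = 0 then L p.1 else R

/-- activities of the doubled pattern -/
def da (la lr : ℝ) : W × Fin 3 → ℝ := fun p => if p.2 = 0 then la else lr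

lemma dl_zero (L : W → Finset U) (R : Finset U) (w : W) : dl L R (w, 0) = L w := by
  simp [dl]

lemma dl_ne (L : W → Finset U) (R : Finset U) (p : W × Fin 3) (h : p.2 ≠ 0) : dl L R p = R := by
  simp [dl, h]

lemma da_zero (la lr : ℝ) (w : W) : da la lr (w, 0) = la := by
  simp [da]

lemma da_ne (la lr : ℝ) (p : W × Fin 3) (h : p.2 ≠ 0) : da la lr p = lr := by
  simp [da, h]

lemma da_pos {la lr : ℝ} (ha : 0 < la) (hr : 0 < lr) (p : W × Fin 3) : 0 < da la lr p := by
  unfold da; split_ifs
  · exact ha
  · exact hr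

/-- neighbours of an original vertex -/
lemma card_nb_zero (G : SimpleGraph W) (B : Finset W) (w : W) :
    (nb (dbl G) (w, 0) ∩ (B ×ˢ (Finset.univ : Finset (Fin 3)))).card = 3 * (nb G w ∩ B).card := by
  have h : nb (dbl G) (w, 0) ∩ (B ×ˢ (Finset.univ : Finset (Fin 3))) =
      (nb G w ∩ B) ×ˢ (Finset.univ : Finset (Fin 3)) := by
    ext ⟨y, j⟩
    simp only [Finset.mem_inter, mem_nb, dbl_adj, Finset.mem_product, Finset.mem_univ, and_true]
    tauto
  rw [h, Finset.card_product, Finset.card_univ, Fintype.card_fin, mul_comm]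

lemma card_nb_ne (G : SimpleGraph W) (B : Finset W) (w : W) {i : Fin 3} (hi : i ≠ 0) :
    (nb (dbl G) (w, i) ∩ (B ×ˢ (Finset.univ : Finset (Fin 3)))).card = (nb G w ∩ B).card := by
  have h : nb (dbl G) (w, i) ∩ (B ×ˢ (Finset.univ : Finset (Fin 3))) =
      (nb G w ∩ B) ×ˢ ({0} : Finset (Fin 3)) := by
    ext ⟨y, j⟩
    simp only [Finset.mem_inter, mem_nb, dbl_adj, Finset.mem_product, Finset.mem_univ, and_true,
      Finset.mem_singleton]
    tauto
  rw [h, Finset.card_product, Finset.card_singleton, mul_one]

end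

/-- general removal identity -/
lemma Z_erase {W U : Type*} [Fintype W] [Fintype U] [DecidableEq W] [DecidableEq U]
    {G : SimpleGraph W} {T : SimpleGraph U} {L : W → Finset U} {l : W → ℝ}
    {B : Finset W} {w : W} :
    ∑ f ∈ conf G T L B, (if f w = none then wt l f else 0) = Z G T L l (B.erase w) := by
  unfold Z
  rw [← Finset.sum_filter]
  apply Finset.sum_congr _ (fun _ _ => rfl)
  ext f
  rw [Finset.mem_filter, mem_conf, mem_conf]
  constructor
  · rintro ⟨⟨h1, h2⟩, h3⟩
    refine ⟨fun y hy => ?_, h2⟩
    by_cases hyw : y = w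
    · rw [hyw]; exact h3
    · exact h1 y (fun h => hy (Finset.mem_erase.2 ⟨hyw, h⟩))
  · rintro ⟨h1, h2⟩
    refine ⟨⟨fun y hy => h1 y (fun h => hy (Finset.mem_of_mem_erase h)), h2⟩, ?_⟩
    exact h1 w (by simp)

lemma collision_le {W U : Type*} [Fintype W] [Fintype U] [DecidableEq W] [DecidableEq U]
    {G : SimpleGraph W} {T : SimpleGraph U} {L : W → Finset U} {l : W → ℝ}
    (hl : ∀ w, 0 < l w) {B : Finset W} {w w' : W} (hw : w ∈ B) (hw' : w' ∈ B)
    (hne : w' ≠ w) (u : U) :
    ∑ f ∈ conf G T L B, (if f w = some u ∧ f w' = some u then wt l f else 0) ≤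
      l w * l w' * Z G T L l ((B.erase w).erase w') := by
  rw [← Finset.sum_filter]
  set F := (conf G T L B).filter (fun f => f w = some u ∧ f w' = some u) with hF
  set e : (W → Option U) → (W → Option U) :=
    fun f => Function.update (Function.update f w none) w' none with he
  have hup : ∀ (f : W → Option U) (z : W), f z = some u →
      wt l f = l z * wt l (Function.update f z none) := by
    intro f z hz
    have h1 := wt_update_some (l := l) (f := Function.update f z none) (w := z) (by simp) u
    rw [Function.update_idem] at h1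
    have h2 : Function.update f z (some u) = f := by
      rw [← hz]; exact Function.update_eq_self z f
    rw [h2] at h1
    exact h1
  have h1 : ∀ f ∈ F, wt l f = l w * l w' * wt l (e f) := by
    intro f hf
    rw [hF, Finset.mem_filter] at hf
    rw [hup f w hf.2.1, hup (Function.update f w none) w'
      (by rw [Function.update_of_ne hne]; exact hf.2.2), he]
    ring
  rw [Finset.sum_congr rfl h1, ← Finset.mul_sum]
  apply mul_le_mul_of_nonneg_left _ (mul_pos (hl w) (hl w')).le
  have hinj : Set.InjOn e F := by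
    intro f hf g hg hfg
    rw [Finset.mem_coe, hF, Finset.mem_filter] at hf hg
    funext y
    have := congrFun hfg y
    simp only [he] at this
    by_cases h1 : y = w'
    · subst h1; rw [hf.2.2, hg.2.2]
    · rw [Function.update_of_ne h1, Function.update_of_ne h1] at this
      by_cases h2 : y = w
      · subst h2; rw [hf.2.1, hg.2.1]
      · rw [Function.update_of_ne h2, Function.update_of_ne h2] at this
        exact this
  rw [← Finset.sum_image (f := fun g => wt l g) hinj]
  unfold Z
  have hmem : ∀ (B : Finset W) (z : W), z ∈ B → ∀ f ∈ conf G T L B,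
      Function.update f z none ∈ conf G T L (B.erase z) := by
    intro B z hz f hf
    apply update_none_mem
    rw [Finset.insert_erase hz]
    exact hf
  apply Finset.sum_le_sum_of_subset_of_nonneg
  · intro g hg
    rw [Finset.mem_image] at hg
    obtain ⟨f, hf, rfl⟩ := hg
    rw [hF, Finset.mem_filter] at hf
    exact hmem _ _ (Finset.mem_erase.2 ⟨hne, hw'⟩) _ (hmem _ _ hw _ hf.1)
  · intro i _ _
    exact wt_nonneg hl i

end Pool.Agent.H37.HC
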