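import Pool.Agent.H37.HC.Good

set_option autoImplicit false
set_option linter.unusedSectionVars false

/-!
Existence of a good partial placement, with control of the availability inside a reserved set.
-/

namespace Pool.Agent.H37.HC

open Finset
open Pool.Agent.H37.Hard (nb mem_nb conf mem_conf avail mem_avail blk mem_blk avail_eq_filter
  update_none_mem)

variable {W U : Type*} [Fintype W] [Fintype U] [DecidableEq W] [DecidableEq U]

theorem exists_good2 [Nonempty U] {G : SimpleGraph W} {T : SimpleGraph U} {Λ : W → Finset U}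
    {R : Finset U}
    (hT : ∀ u a b, T.Adj u a → T.Adj u b → ¬ T.Adj a b) (B : Finset W)
    {la lr : ℝ} (hla : 0 < la) (hlr : 0 < lr) {D : ℕ} (hD : ∀ x, (nb T x).card ≤ D)
    {Lo θ sg dg t1 t2 δ κ : ℝ} (hLo0 : 0 < Lo) (hθ : 0 ≤ θ) (hsg : 0 ≤ sg) (ht1 : 0 ≤ t1)
    (hδ : 0 ≤ δ) (hκ : 0 ≤ κ)
    (hLo : ∀ w ∈ B, Lo ≤ ((Λ w).card : ℝ))
    (hΛR : ∀ w ∈ B, ∀ v ∈ Λ w, ((nb T v ∩ R).card : ℝ) ≤ θ * R.card)
    (hsa : la * D ≤ sg) (hsr : lr * (θ * R.card) ≤ sg)
    (hdg : ∀ w ∈ B, ((nb G w ∩ B).card : ℝ) ≤ dg)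
    (h5 : (1 + sg) * (3 * dg * D) ≤ t1 * Lo) (h6 : (1 + sg) * (dg * θ) ≤ t2) :
    ∃ P ⊆ B, ∃ Bad ⊆ B, ∃ g : W → U, Set.InjOn g P ∧ (∀ w ∈ P, g w ∈ Λ w) ∧
      (∀ w ∈ P, ∀ w' ∈ P, G.Adj w w' → ¬ T.Adj (g w) (g w')) ∧
      (∀ w ∈ B, w ∉ Bad → ∃ Q ⊆ R, δ * R.card ≤ (Q.card : ℝ) ∧
        ∀ r ∈ Q, ∀ y ∈ P, G.Adj w y → ¬ T.Adj (g y) r) ∧
      κ * (Bad.card : ℝ) + (((B \ P).card : ℕ) : ℝ) ≤
        κ * (B.card : ℝ) * ((1 + lr * (δ * R.card)) / (1 + lr * R.card * Real.exp (-t2))) ^ 2 +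
        ((B.card : ℝ) / (1 + la * Lo * Real.exp (-t1)) +
        (B.card : ℝ) ^ 2 * (Fintype.card U : ℝ) / (Lo * Real.exp (-t1)) ^ 2) := by
  classical
  have hlpos := da_pos (W := W) hla hlr
  set B' := B ×ˢ (Finset.univ : Finset (Fin 3)) with hB'
  set l' := da (W := W) la lr with hl'
  set L' := dl Λ R with hL'
  obtain ⟨ρ1, hρ1⟩ : ∃ ρ1 : ℝ, ρ1 = 1 + la * Lo * Real.exp (-t1) := ⟨_, rfl⟩
  obtain ⟨ρ2, hρ2⟩ : ∃ ρ2 : ℝ, ρ2 = 1 + lr * R.card * Real.exp (-t2) := ⟨_, rfl⟩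
  have hx : 0 < la * Lo * Real.exp (-t1) := by positivity
  have hρ1p : 0 < ρ1 := by rw [hρ1]; linarith
  have hρ2p : 0 < ρ2 := by rw [hρ2]; positivity
  have hrat := fun w (hw : w ∈ B) B'' hB'' => dbl_ratio (G := G) (Λ := Λ) (R := R) hT B hla hlr hD
    hθ hsg ht1 hLo hΛR hsa hsr hdg h5 h6 hw B'' hB''
  rw [← hρ1, ← hρ2]
  simp only [← hρ1, ← hρ2] at hrat
  have hmem : ∀ w ∈ B, ((w, (0 : Fin 3)) : W × Fin 3) ∈ B' := by
    intro w hw; rw [hB', Finset.mem_product]; exact ⟨hw, Finset.mem_univ _⟩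
  have hratio1 : ∀ w ∈ B, Z (dbl G) T L' l' (B'.erase (w, 0)) * ρ1 ≤ Z (dbl G) T L' l' B' := by
    intro w hw
    have := (hrat w hw (B'.erase (w, 0)) (Finset.erase_subset _ _)).1 (Finset.notMem_erase _ _)
    rwa [Finset.insert_erase (hmem w hw)] at this
  have hpair : ∀ w w' : W, w' ≠ w → ((w', (0 : Fin 3)) : W × Fin 3) ≠ (w, 0) := by
    intro w w' hne h; exact hne (congrArg Prod.fst h)
  have hratio2 : ∀ w ∈ B, ∀ w' ∈ B, w' ≠ w →
      Z (dbl G) T L' l' ((B'.erase (w, 0)).erase (w', 0)) * ρ1 ^ 2 ≤ Z (dbl G) T L' l' B' := by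
    intro w hw w' hw' hne
    have h1 := (hrat w' hw' ((B'.erase (w, 0)).erase (w', 0))
      ((Finset.erase_subset _ _).trans (Finset.erase_subset _ _))).1 (Finset.notMem_erase _ _)
    rw [Finset.insert_erase (Finset.mem_erase.2 ⟨hpair w w' hne, hmem w' hw'⟩)] at h1
    have h2 := mul_le_mul_of_nonneg_right h1 hρ1p.le
    calc Z (dbl G) T L' l' ((B'.erase (w, 0)).erase (w', 0)) * ρ1 ^ 2
        = Z (dbl G) T L' l' ((B'.erase (w, 0)).erase (w', 0)) * ρ1 * ρ1 := by ring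
      _ ≤ Z (dbl G) T L' l' (B'.erase (w, 0)) * ρ1 := h2
      _ ≤ Z (dbl G) T L' l' B' := hratio1 w hw
  have hZ := Z_pos (G := dbl G) (T := T) (L := L') hlpos B'
  -- the bad counts
  obtain ⟨Ev, hEv⟩ : ∃ Ev : W → (W × Fin 3 → Option U) → ℝ, Ev = fun w f =>
    (if ((avail (dbl G) T L' f (w, 1)).card : ℝ) < δ * R.card then (1 : ℝ) else 0) := ⟨_, rfl⟩
  obtain ⟨X1, hX1⟩ : ∃ X1 : (W × Fin 3 → Option U) → ℝ,
    X1 = fun f => ∑ w ∈ B, (if f (w, 0) = none then (1 : ℝ) else 0) := ⟨_, rfl⟩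
  obtain ⟨X2, hX2⟩ : ∃ X2 : (W × Fin 3 → Option U) → ℝ,
    X2 = fun f => ∑ w ∈ B, ∑ w' ∈ B.erase w, ∑ u,
    (if f (w, 0) = some u ∧ f (w', 0) = some u then (1 : ℝ) else 0) := ⟨_, rfl⟩
  obtain ⟨X3, hX3⟩ : ∃ X3 : (W × Fin 3 → Option U) → ℝ,
    X3 = fun f => ∑ w ∈ B, Ev w f := ⟨_, rfl⟩
  have hE1 : ∑ f ∈ conf (dbl G) T L' B', wt l' f * X1 f ≤
      (B.card : ℝ) / ρ1 * Z (dbl G) T L' l' B' := by
    have h1 : ∑ f ∈ conf (dbl G) T L' B', wt l' f * X1 f =
        ∑ w ∈ B, Z (dbl G) T L' l' (B'.erase (w, 0)) := by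
      simp only [hX1, Finset.mul_sum]
      rw [Finset.sum_comm]
      apply Finset.sum_congr rfl
      intro w _
      rw [← Z_erase]
      apply Finset.sum_congr rfl
      intro f _
      split_ifs <;> simp
    rw [h1]
    calc ∑ w ∈ B, Z (dbl G) T L' l' (B'.erase (w, 0)) ≤ ∑ w ∈ B, Z (dbl G) T L' l' B' / ρ1 := by
          apply Finset.sum_le_sum
          intro w hw
          rw [le_div_iff₀ hρ1p]
          exact hratio1 w hw
      _ = (B.card : ℝ) / ρ1 * Z (dbl G) T L' l' B' := by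
          rw [Finset.sum_const, nsmul_eq_mul]; ring
  have hE2 : ∑ f ∈ conf (dbl G) T L' B', wt l' f * X2 f ≤
      (B.card : ℝ) ^ 2 * (Fintype.card U : ℝ) / (Lo * Real.exp (-t1)) ^ 2 *
        Z (dbl G) T L' l' B' := by
    have h1 : ∑ f ∈ conf (dbl G) T L' B', wt l' f * X2 f = ∑ w ∈ B, ∑ w' ∈ B.erase w, ∑ u,
        ∑ f ∈ conf (dbl G) T L' B', (if f (w, 0) = some u ∧ f (w', 0) = some u then wt l' f
          else 0) := by
      simp only [hX2, Finset.mul_sum]
      rw [Finset.sum_comm]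
      apply Finset.sum_congr rfl
      intro w _
      rw [Finset.sum_comm]
      apply Finset.sum_congr rfl
      intro w' _
      rw [Finset.sum_comm]
      apply Finset.sum_congr rfl
      intro u _
      apply Finset.sum_congr rfl
      intro f _
      split_ifs <;> simp
    rw [h1]
    have h2 : ∀ w ∈ B, ∀ w' ∈ B.erase w, ∀ u : U,
        ∑ f ∈ conf (dbl G) T L' B', (if f (w, 0) = some u ∧ f (w', 0) = some u then wt l' f
          else 0) ≤ Z (dbl G) T L' l' B' / (Lo * Real.exp (-t1)) ^ 2 := by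
      intro w hw w' hw' u
      rw [Finset.mem_erase] at hw'
      refine (collision_le hlpos (hmem w hw) (hmem w' hw'.2) (hpair w w' hw'.1) u).trans ?_
      rw [le_div_iff₀ (by positivity), hl', da_zero, da_zero]
      have h3 := hratio2 w hw w' hw'.2 hw'.1
      rw [hl'] at h3
      have h4 : 0 ≤ Z (dbl G) T L' (da la lr) ((B'.erase (w, 0)).erase (w', 0)) :=
        (Z_pos hlpos _).le
      have h5 : (la * Lo * Real.exp (-t1)) ^ 2 ≤ ρ1 ^ 2 := by
        apply pow_le_pow_left₀ hx.le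
        rw [hρ1]; linarith
      calc la * la * Z (dbl G) T L' (da la lr) ((B'.erase (w, 0)).erase (w', 0)) *
            (Lo * Real.exp (-t1)) ^ 2
          = Z (dbl G) T L' (da la lr) ((B'.erase (w, 0)).erase (w', 0)) *
            (la * Lo * Real.exp (-t1)) ^ 2 := by ring
        _ ≤ Z (dbl G) T L' (da la lr) ((B'.erase (w, 0)).erase (w', 0)) * ρ1 ^ 2 :=
            mul_le_mul_of_nonneg_left h5 h4
        _ ≤ Z (dbl G) T L' (da la lr) B' := h3
    have hq : 0 ≤ Z (dbl G) T L' l' B' / (Lo * Real.exp (-t1)) ^ 2 := by positivity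
    calc ∑ w ∈ B, ∑ w' ∈ B.erase w, ∑ u,
        ∑ f ∈ conf (dbl G) T L' B', (if f (w, 0) = some u ∧ f (w', 0) = some u then wt l' f
          else 0)
        ≤ ∑ w ∈ B, ∑ w' ∈ B.erase w, ∑ u : U,
            Z (dbl G) T L' l' B' / (Lo * Real.exp (-t1)) ^ 2 := by
          apply Finset.sum_le_sum; intro w hw
          apply Finset.sum_le_sum; intro w' hw'
          apply Finset.sum_le_sum; intro u _
          exact h2 w hw w' hw' u
      _ ≤ ∑ w ∈ B, ∑ w' ∈ B, ∑ u : U, Z (dbl G) T L' l' B' / (Lo * Real.exp (-t1)) ^ 2 := by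
          apply Finset.sum_le_sum; intro w hw
          apply Finset.sum_le_sum_of_subset_of_nonneg (Finset.erase_subset _ _)
          intro i _ _
          exact Finset.sum_nonneg (fun _ _ => hq)
      _ = (B.card : ℝ) ^ 2 * (Fintype.card U : ℝ) / (Lo * Real.exp (-t1)) ^ 2 *
            Z (dbl G) T L' l' B' := by
          simp only [Finset.sum_const, nsmul_eq_mul, Finset.card_univ]
          ring
  have hE3 : ∑ f ∈ conf (dbl G) T L' B', wt l' f * X3 f ≤
      (B.card : ℝ) * ((1 + lr * (δ * R.card)) / ρ2) ^ 2 * Z (dbl G) T L' l' B' := by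
    have h1 : ∑ f ∈ conf (dbl G) T L' B', wt l' f * X3 f =
        ∑ w ∈ B, ∑ f ∈ conf (dbl G) T L' B', wt l' f * Ev w f := by
      simp only [hX3, Finset.mul_sum]
      rw [Finset.sum_comm]
    rw [h1]
    calc ∑ w ∈ B, ∑ f ∈ conf (dbl G) T L' B', wt l' f * Ev w f
        ≤ ∑ w ∈ B, ((1 + lr * (δ * R.card)) / ρ2) ^ 2 * Z (dbl G) T L' l' B' := by
          apply Finset.sum_le_sum
          intro w hw
          rw [hEv]
          exact bad_weight B hla hlr hδ hρ2p hw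
            (fun i hi B'' hB'' hnot => (hrat w hw B'' hB'').2 i hi hnot)
      _ = (B.card : ℝ) * ((1 + lr * (δ * R.card)) / ρ2) ^ 2 * Z (dbl G) T L' l' B' := by
          rw [Finset.sum_const, nsmul_eq_mul]; ring
  obtain ⟨K, hK⟩ : ∃ K : ℝ, K = κ * (B.card : ℝ) * ((1 + lr * (δ * R.card)) / ρ2) ^ 2 +
    ((B.card : ℝ) / ρ1 +
    (B.card : ℝ) ^ 2 * (Fintype.card U : ℝ) / (Lo * Real.exp (-t1)) ^ 2) := ⟨_, rfl⟩
  rw [← hK]
  have hsum : ∑ f ∈ conf (dbl G) T L' B', wt l' f * (κ * X3 f + (X1 f + X2 f)) ≤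
      ∑ f ∈ conf (dbl G) T L' B', wt l' f * K := by
    have h1 : ∑ f ∈ conf (dbl G) T L' B', wt l' f * K = K * Z (dbl G) T L' l' B' := by
      rw [← Finset.sum_mul, mul_comm]; rfl
    have h2 : ∑ f ∈ conf (dbl G) T L' B', wt l' f * (κ * X3 f + (X1 f + X2 f)) =
        κ * ∑ f ∈ conf (dbl G) T L' B', wt l' f * X3 f +
        (∑ f ∈ conf (dbl G) T L' B', wt l' f * X1 f +
          ∑ f ∈ conf (dbl G) T L' B', wt l' f * X2 f) := by
      rw [← Finset.sum_add_distrib, Finset.mul_sum, ← Finset.sum_add_distrib]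
      exact Finset.sum_congr rfl (fun f _ => by ring)
    rw [h1, h2, hK, add_mul, add_mul]
    have h3 := mul_le_mul_of_nonneg_left hE3 hκ
    have h4 : κ * ((B.card : ℝ) * ((1 + lr * (δ * R.card)) / ρ2) ^ 2 * Z (dbl G) T L' l' B') =
      κ * (B.card : ℝ) * ((1 + lr * (δ * R.card)) / ρ2) ^ 2 * Z (dbl G) T L' l' B' := by ring
    rw [h4] at h3
    exact add_le_add h3 (add_le_add hE1 hE2)
  have hne : (conf (dbl G) T L' B').Nonempty := by
    refine ⟨fun _ => none, ?_⟩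
    rw [mem_conf]; simp
  obtain ⟨f, hf, hfX⟩ := Finset.exists_le_of_sum_le hne hsum
  have hfX' : κ * X3 f + (X1 f + X2 f) ≤ K := le_of_mul_le_mul_left hfX (wt_pos hlpos f)
  have hfc := mem_conf.1 hf
  obtain ⟨u0⟩ := (inferInstance : Nonempty U)
  set P : Finset W := B.filter (fun w => f (w, 0) ≠ none ∧
    ∀ w' ∈ B, w' ≠ w → f (w', 0) ≠ f (w, 0)) with hP
  set Bad : Finset W := B.filter (fun w => ((avail (dbl G) T L' f (w, 1)).card : ℝ) <
    δ * R.card) with hBad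
  have hPv : ∀ w ∈ P, f (w, 0) = some ((f (w, 0)).getD u0) := by
    intro w hw
    rw [hP, Finset.mem_filter] at hw
    cases h : f (w, 0) with
    | none => exact absurd h hw.2.1
    | some v => simp
  refine ⟨P, Finset.filter_subset _ _, Bad, Finset.filter_subset _ _,
    fun w => (f (w, 0)).getD u0, ?_, ?_, ?_, ?_, ?_⟩
  · intro w hw w' hw' heq
    rw [Finset.mem_coe] at hw hw'
    by_contra hcon
    have h1 := hPv w hw
    have h2 := hPv w' hw'
    have h3 : f (w, 0) = f (w', 0) := by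
      rw [h1, h2]
      exact congrArg some heq
    rw [hP, Finset.mem_filter] at hw hw'
    exact hw'.2.2 w hw.1 hcon h3
  · intro w hw
    have h1 := hfc.2.1 (w, 0) _ (hPv w hw)
    rw [hL', dl_zero] at h1
    exact h1
  · intro w hw w' hw' hadj
    exact hfc.2.2 (w, 0) (w', 0) (dbl_adj.2 ⟨hadj, Or.inl rfl⟩) _ _ (hPv w hw) (hPv w' hw')
  · intro w hw hwB
    refine ⟨avail (dbl G) T L' f (w, 1), ?_, ?_, ?_⟩
    · intro u hu
      have h1 := (mem_avail.1 hu).1
      rw [hL', dl_ne Λ R (w, 1) (by simp)] at h1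
      exact h1
    · by_contra hcon
      push Not at hcon
      exact hwB (by rw [hBad, Finset.mem_filter]; exact ⟨hw, hcon⟩)
    · intro r hr y hy hadj
      exact (mem_avail.1 hr).2 (y, 0) (dbl_adj.2 ⟨hadj, Or.inr rfl⟩) _ (hPv y hy)
  · refine le_trans ?_ hfX'
    apply add_le_add
    · apply mul_le_mul_of_nonneg_left _ hκ
      rw [hBad, Finset.card_filter, hX3, hEv]
      push_cast
      exact le_rfl
    · have h1 : B \ P ⊆ B.filter (fun w => f (w, 0) = none) ∪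
          B.filter (fun w => f (w, 0) ≠ none ∧ ∃ w' ∈ B, w' ≠ w ∧ f (w', 0) = f (w, 0)) := by
        intro w hw
        rw [Finset.mem_sdiff, hP, Finset.mem_filter] at hw
        rw [Finset.mem_union, Finset.mem_filter, Finset.mem_filter]
        by_cases hn : f (w, 0) = none
        · left; exact ⟨hw.1, hn⟩
        · right
          refine ⟨hw.1, hn, ?_⟩
          by_contra hcon
          push Not at hcon
          exact hw.2 ⟨hw.1, hn, hcon⟩
      have h2 : (((B \ P).card : ℕ) : ℝ) ≤ ((B.filter (fun w => f (w, 0) = none)).card : ℝ) +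
          ((B.filter (fun w => f (w, 0) ≠ none ∧ ∃ w' ∈ B, w' ≠ w ∧
            f (w', 0) = f (w, 0))).card : ℝ) := by
        exact_mod_cast (Finset.card_le_card h1).trans (Finset.card_union_le _ _)
      refine h2.trans (add_le_add ?_ ?_)
      · rw [Finset.card_filter, hX1]
        push_cast
        exact le_rfl
      · rw [Finset.card_filter, hX2]
        push_cast
        apply Finset.sum_le_sum
        intro w hw
        have hnn : ∀ w' ∈ B.erase w, 0 ≤ ∑ u : U,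
            (if f (w, 0) = some u ∧ f (w', 0) = some u then (1 : ℝ) else 0) := by
          intro w' _
          apply Finset.sum_nonneg
          intro u _
          split_ifs <;> norm_num
        split_ifs with hc
        · obtain ⟨hn, w', hw', hne', heq⟩ := hc
          obtain ⟨v, hv⟩ := Option.ne_none_iff_exists'.1 hn
          have h3 : (1 : ℝ) ≤ ∑ u : U,
              (if f (w, 0) = some u ∧ f (w', 0) = some u then (1 : ℝ) else 0) := by
            have h4 := Finset.single_le_sum (s := Finset.univ)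
              (f := fun u : U => (if f (w, 0) = some u ∧ f (w', 0) = some u then (1 : ℝ) else 0))
              (fun u _ => by split_ifs <;> norm_num) (Finset.mem_univ v)
            have h5 : f (w', 0) = some v := by rw [heq, hv]
            simpa [hv, h5] using h4
          exact h3.trans (Finset.single_le_sum hnn (Finset.mem_erase.2 ⟨hne', hw'⟩))
        · exact Finset.sum_nonneg hnn

end Pool.Agent.H37.HC
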