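import Pool.Agent.H37.HC.Double

set_option autoImplicit false
set_option linter.unusedSectionVars false

/-!
Existence of a good partial placement, with control of the availability inside a reserved set.
-/

namespace Pool.Agent.H37.HC

open Finset
open Pool.Agent.H37.Hard (nb mem_nb conf mem_conf avail mem_avail blk mem_blk avail_eq_filter
  update_none_mem)

section

variable {W U : Type*} [Fintype W] [Fintype U] [DecidableEq W] [DecidableEq U]

/-- the two ratios for the doubled pattern -/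
lemma dbl_ratio {G : SimpleGraph W} {T : SimpleGraph U} {Λ : W → Finset U} {R : Finset U}
    (hT : ∀ u a b, T.Adj u a → T.Adj u b → ¬ T.Adj a b) (B : Finset W)
    {la lr : ℝ} (hla : 0 < la) (hlr : 0 < lr) {D : ℕ} (hD : ∀ x, (nb T x).card ≤ D)
    {Lo θ sg dg t1 t2 : ℝ} (hθ : 0 ≤ θ) (hsg : 0 ≤ sg) (ht1 : 0 ≤ t1)
    (hLo : ∀ w ∈ B, Lo ≤ ((Λ w).card : ℝ))
    (hΛR : ∀ w ∈ B, ∀ v ∈ Λ w, ((nb T v ∩ R).card : ℝ) ≤ θ * R.card)
    (hsa : la * D ≤ sg) (hsr : lr * (θ * R.card) ≤ sg)
    (hdg : ∀ w ∈ B, ((nb G w ∩ B).card : ℝ) ≤ dg)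
    (h5 : (1 + sg) * (3 * dg * D) ≤ t1 * Lo) (h6 : (1 + sg) * (dg * θ) ≤ t2)
    {w : W} (hw : w ∈ B) (B'' : Finset (W × Fin 3))
    (hB'' : B'' ⊆ B ×ˢ (Finset.univ : Finset (Fin 3))) :
    ((w, (0 : Fin 3)) ∉ B'' → Z (dbl G) T (dl Λ R) (da la lr) B'' *
        (1 + la * Lo * Real.exp (-t1)) ≤
      Z (dbl G) T (dl Λ R) (da la lr) (insert (w, 0) B'')) ∧
    (∀ i : Fin 3, i ≠ 0 → (w, i) ∉ B'' → Z (dbl G) T (dl Λ R) (da la lr) B'' *
        (1 + lr * (R.card : ℝ) * Real.exp (-t2)) ≤
      Z (dbl G) T (dl Λ R) (da la lr) (insert (w, i) B'')) := by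
  have hlpos := da_pos (W := W) hla hlr
  constructor
  · intro hnot
    have hnb : ((nb (dbl G) (w, 0) ∩ B'').card : ℝ) ≤ 3 * dg := by
      have h1 : (nb (dbl G) (w, 0) ∩ B'').card ≤
          (nb (dbl G) (w, 0) ∩ (B ×ˢ (Finset.univ : Finset (Fin 3)))).card :=
        Finset.card_le_card (Finset.inter_subset_inter_left hB'')
      rw [card_nb_zero] at h1
      have h2 : ((nb (dbl G) (w, 0) ∩ B'').card : ℝ) ≤ 3 * ((nb G w ∩ B).card : ℝ) := by
        exact_mod_cast h1
      linarith [hdg w hw]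
    have h := Z_ratio (G := dbl G) (T := T) (L := dl Λ R) (l := da la lr) (sg := sg) (h := (D : ℝ))
      (t := t1) hT hlpos hsg (by positivity) hnot
      (by
        intro u hu y hy
        rw [dl_zero] at hu
        have hyB := hB'' (Finset.mem_inter.1 hy).2
        rw [Finset.mem_product] at hyB
        by_cases h0 : y.2 = 0
        · have hda : da la lr y = la := by simp [da, h0]
          rw [hda]
          refine le_trans (mul_le_mul_of_nonneg_left ?_ hla.le) hsa
          exact_mod_cast (Finset.card_le_card Finset.inter_subset_left).trans (hD u)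
        · rw [da_ne la lr y h0, dl_ne Λ R y h0]
          exact le_trans (mul_le_mul_of_nonneg_left (hΛR w hw u hu) hlr.le) hsr)
      (by
        intro y _ v _
        exact_mod_cast (Finset.card_le_card Finset.inter_subset_left).trans (hD v))
      (by
        rw [dl_zero]
        have h3 : (1 + sg) * (((nb (dbl G) (w, 0) ∩ B'').card : ℝ) * D) ≤
            (1 + sg) * (3 * dg * D) := by
          apply mul_le_mul_of_nonneg_left _ (by linarith)
          exact mul_le_mul_of_nonneg_right hnb (by positivity)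
        have h4 : t1 * Lo ≤ t1 * ((Λ w).card : ℝ) := mul_le_mul_of_nonneg_left (hLo w hw) ht1
        linarith)
    refine le_trans ?_ h
    apply mul_le_mul_of_nonneg_left _ (Z_pos hlpos _).le
    rw [da_zero, dl_zero]
    have : la * Lo * Real.exp (-t1) ≤ la * ((Λ w).card : ℝ) * Real.exp (-t1) := by
      apply mul_le_mul_of_nonneg_right _ (Real.exp_pos _).le
      exact mul_le_mul_of_nonneg_left (hLo w hw) hla.le
    linarith
  · intro i hi hnot
    have hnb : ((nb (dbl G) (w, i) ∩ B'').card : ℝ) ≤ dg := by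
      have h1 : (nb (dbl G) (w, i) ∩ B'').card ≤
          (nb (dbl G) (w, i) ∩ (B ×ˢ (Finset.univ : Finset (Fin 3)))).card :=
        Finset.card_le_card (Finset.inter_subset_inter_left hB'')
      rw [card_nb_ne G B w hi] at h1
      have h2 : ((nb (dbl G) (w, i) ∩ B'').card : ℝ) ≤ ((nb G w ∩ B).card : ℝ) := by
        exact_mod_cast h1
      linarith [hdg w hw]
    have hyz : ∀ y ∈ nb (dbl G) (w, i) ∩ B'', y.2 = 0 ∧ y.1 ∈ B := by
      intro y hy
      rw [Finset.mem_inter, mem_nb, dbl_adj] at hy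
      refine ⟨?_, (Finset.mem_product.1 (hB'' hy.2)).1⟩
      rcases hy.1.2 with h | h
      · exact absurd h hi
      · exact h
    have h := Z_ratio (G := dbl G) (T := T) (L := dl Λ R) (l := da la lr) (sg := sg)
      (h := θ * R.card) (t := t2) hT hlpos hsg (by positivity) hnot
      (by
        intro u _ y hy
        have h0 := (hyz y hy).1
        have hda : da la lr y = la := by simp [da, h0]
        rw [hda]
        refine le_trans (mul_le_mul_of_nonneg_left ?_ hla.le) hsa
        exact_mod_cast (Finset.card_le_card Finset.inter_subset_left).trans (hD u))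
      (by
        intro y hy v hv
        obtain ⟨h0, hyB⟩ := hyz y hy
        have hdl : dl Λ R y = Λ y.1 := by simp [dl, h0]
        rw [hdl] at hv
        rw [dl_ne Λ R (w, i) hi]
        exact hΛR y.1 hyB v hv)
      (by
        rw [dl_ne Λ R (w, i) hi]
        have h3 : ((nb (dbl G) (w, i) ∩ B'').card : ℝ) * (θ * R.card) ≤ dg * (θ * R.card) :=
          mul_le_mul_of_nonneg_right hnb (by positivity)
        have h4 := mul_le_mul_of_nonneg_left h3 (by linarith : (0 : ℝ) ≤ 1 + sg)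
        have h7 := mul_le_mul_of_nonneg_right h6 (by positivity : (0 : ℝ) ≤ R.card)
        calc (1 + sg) * (((nb (dbl G) (w, i) ∩ B'').card : ℝ) * (θ * R.card))
            ≤ (1 + sg) * (dg * (θ * R.card)) := h4
          _ = (1 + sg) * (dg * θ) * R.card := by ring
          _ ≤ t2 * R.card := h7)
    rw [da_ne la lr (w, i) hi, dl_ne Λ R (w, i) hi] at h
    exact h

/-- the event of small availability in `R` has small weight -/
lemma bad_weight {G : SimpleGraph W} {T : SimpleGraph U} {Λ : W → Finset U} {R : Finset U}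
    (B : Finset W) {la lr : ℝ} (hla : 0 < la) (hlr : 0 < lr) {δ ρ2 : ℝ} (hδ : 0 ≤ δ)
    (hρ2 : 0 < ρ2) {w : W} (hw : w ∈ B)
    (hratio : ∀ i : Fin 3, i ≠ 0 → ∀ B'' ⊆ B ×ˢ (Finset.univ : Finset (Fin 3)), (w, i) ∉ B'' →
      Z (dbl G) T (dl Λ R) (da la lr) B'' * ρ2 ≤
        Z (dbl G) T (dl Λ R) (da la lr) (insert (w, i) B'')) :
    ∑ f ∈ conf (dbl G) T (dl Λ R) (B ×ˢ (Finset.univ : Finset (Fin 3))),
        wt (da la lr) f * (if ((avail (dbl G) T (dl Λ R) f (w, 1)).card : ℝ) < δ * R.card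
          then (1 : ℝ) else 0) ≤
      ((1 + lr * (δ * R.card)) / ρ2) ^ 2 *
        Z (dbl G) T (dl Λ R) (da la lr) (B ×ˢ (Finset.univ : Finset (Fin 3))) := by
  have hlpos := da_pos (W := W) hla hlr
  set B' := B ×ˢ (Finset.univ : Finset (Fin 3)) with hB'
  set E : (W × Fin 3 → Option U) → ℝ :=
    fun f => (if ((avail (dbl G) T (dl Λ R) f (w, 1)).card : ℝ) < δ * R.card
          then (1 : ℝ) else 0) with hE
  have hE0 : ∀ f, 0 ≤ E f := by
    intro f; simp only [hE]; split_ifs <;> norm_num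
  have hE1 : ∀ f, E f ≤ 1 := by
    intro f; simp only [hE]; split_ifs <;> norm_num
  have havail : ∀ (i : Fin 3), i ≠ 0 → ∀ f : W × Fin 3 → Option U,
      avail (dbl G) T (dl Λ R) f (w, i) = avail (dbl G) T (dl Λ R) f (w, 1) := by
    intro i hi f
    ext u
    rw [mem_avail, mem_avail, dl_ne Λ R (w, i) hi, dl_ne Λ R (w, 1) (by simp)]
    constructor
    · rintro ⟨h1, h2⟩
      refine ⟨h1, fun y hy => h2 y ?_⟩
      rw [dbl_adj] at hy ⊢
      refine ⟨hy.1, ?_⟩
      rcases hy.2 with h | h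
      · exact absurd h (by simp)
      · exact Or.inr h
    · rintro ⟨h1, h2⟩
      refine ⟨h1, fun y hy => h2 y ?_⟩
      rw [dbl_adj] at hy ⊢
      refine ⟨hy.1, ?_⟩
      rcases hy.2 with h | h
      · exact absurd h hi
      · exact Or.inr h
  have hinv : ∀ (i : Fin 3), i ≠ 0 → ∀ (f : W × Fin 3 → Option U) (a : Option U),
      E (Function.update f (w, i) a) = E f := by
    intro i hi f a
    have : avail (dbl G) T (dl Λ R) (Function.update f (w, i) a) (w, 1) =
        avail (dbl G) T (dl Λ R) f (w, 1) := by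
      ext u
      rw [mem_avail, mem_avail]
      have hne : ∀ y, (dbl G).Adj (w, 1) y → y ≠ (w, i) := by
        intro y hy h
        rw [dbl_adj] at hy
        rw [h] at hy
        exact G.loopless.irrefl _ hy.1
      constructor
      · rintro ⟨h1, h2⟩
        refine ⟨h1, fun y hy u' hu' => h2 y hy u' ?_⟩
        rw [Function.update_of_ne (hne y hy)]; exact hu'
      · rintro ⟨h1, h2⟩
        refine ⟨h1, fun y hy u' hu' => h2 y hy u' ?_⟩
        rw [Function.update_of_ne (hne y hy)] at hu'; exact hu'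
    simp only [hE]
    rw [this]
  have hstep : ∀ (i : Fin 3), i ≠ 0 → ∀ B'' : Finset (W × Fin 3), (w, i) ∉ B'' →
      ∑ f ∈ conf (dbl G) T (dl Λ R) (insert (w, i) B''), wt (da la lr) f * E f ≤
        (1 + lr * (δ * R.card)) * ∑ f ∈ conf (dbl G) T (dl Λ R) B'', wt (da la lr) f * E f := by
    intro i hi B'' hnot
    rw [sum_insert hlpos hnot E (hinv i hi), Finset.mul_sum]
    apply Finset.sum_le_sum
    intro f _
    rw [da_ne la lr (w, i) hi, havail i hi f]
    have hw0 := wt_nonneg hlpos f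
    by_cases hc : ((avail (dbl G) T (dl Λ R) f (w, 1)).card : ℝ) < δ * R.card
    · have hEf : E f = 1 := by simp only [hE]; rw [if_pos hc]
      rw [hEf, mul_one, mul_comm (1 + lr * (δ * (R.card : ℝ)))]
      apply mul_le_mul_of_nonneg_left _ hw0
      have := mul_le_mul_of_nonneg_left hc.le hlr.le
      linarith
    · have hEf : E f = 0 := by simp only [hE]; rw [if_neg hc]
      rw [hEf]; simp
  have hmem : ∀ i : Fin 3, (w, i) ∈ B' := by
    intro i; rw [hB', Finset.mem_product]; exact ⟨hw, Finset.mem_univ _⟩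
  have hne12 : ((w, (2 : Fin 3)) : W × Fin 3) ≠ (w, 1) := by
    intro h; have := congrArg Prod.snd h; simp at this
  have hmem2 : (w, (2 : Fin 3)) ∈ B'.erase (w, 1) := Finset.mem_erase.2 ⟨hne12, hmem 2⟩
  set B1 := B'.erase (w, 1) with hB1
  set B2 := B1.erase (w, 2) with hB2
  have hins1 : insert (w, 1) B1 = B' := Finset.insert_erase (hmem 1)
  have hins2 : insert (w, 2) B2 = B1 := Finset.insert_erase hmem2
  have hs1 := hstep 1 (by simp) B1 (Finset.notMem_erase _ _)
  have hs2 := hstep 2 (by simp) B2 (Finset.notMem_erase _ _)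
  rw [hins1] at hs1
  rw [hins2] at hs2
  have hr1 := hratio 1 (by simp) B1 (Finset.erase_subset _ _) (Finset.notMem_erase _ _)
  have hr2 := hratio 2 (by simp) B2 ((Finset.erase_subset _ _).trans (Finset.erase_subset _ _))
    (Finset.notMem_erase _ _)
  rw [hins1] at hr1
  rw [hins2] at hr2
  have hc0 : 0 ≤ 1 + lr * (δ * R.card) := by positivity
  have hEZ : ∑ f ∈ conf (dbl G) T (dl Λ R) B2, wt (da la lr) f * E f ≤
      Z (dbl G) T (dl Λ R) (da la lr) B2 := by
    unfold Z
    apply Finset.sum_le_sum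
    intro f _
    have hw0 := wt_nonneg hlpos f
    calc wt (da la lr) f * E f ≤ wt (da la lr) f * 1 := mul_le_mul_of_nonneg_left (hE1 f) hw0
      _ = wt (da la lr) f := mul_one _
  have hZ2 : Z (dbl G) T (dl Λ R) (da la lr) B2 * ρ2 ^ 2 ≤ Z (dbl G) T (dl Λ R) (da la lr) B' := by
    have h3 := mul_le_mul_of_nonneg_right hr2 hρ2.le
    calc Z (dbl G) T (dl Λ R) (da la lr) B2 * ρ2 ^ 2
        = Z (dbl G) T (dl Λ R) (da la lr) B2 * ρ2 * ρ2 := by ring
      _ ≤ Z (dbl G) T (dl Λ R) (da la lr) B1 * ρ2 := h3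
      _ ≤ Z (dbl G) T (dl Λ R) (da la lr) B' := hr1
  calc ∑ f ∈ conf (dbl G) T (dl Λ R) B', wt (da la lr) f * E f
      ≤ (1 + lr * (δ * R.card)) * ∑ f ∈ conf (dbl G) T (dl Λ R) B1, wt (da la lr) f * E f := hs1
    _ ≤ (1 + lr * (δ * R.card)) * ((1 + lr * (δ * R.card)) *
        ∑ f ∈ conf (dbl G) T (dl Λ R) B2, wt (da la lr) f * E f) :=
        mul_le_mul_of_nonneg_left hs2 hc0
    _ ≤ (1 + lr * (δ * R.card)) * ((1 + lr * (δ * R.card)) *
        Z (dbl G) T (dl Λ R) (da la lr) B2) :=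
        mul_le_mul_of_nonneg_left (mul_le_mul_of_nonneg_left hEZ hc0) hc0
    _ = ((1 + lr * (δ * R.card)) / ρ2) ^ 2 * (Z (dbl G) T (dl Λ R) (da la lr) B2 * ρ2 ^ 2) := by
        field_simp
    _ ≤ ((1 + lr * (δ * R.card)) / ρ2) ^ 2 * Z (dbl G) T (dl Λ R) (da la lr) B' :=
        mul_le_mul_of_nonneg_left hZ2 (by positivity)

end

end Pool.Agent.H37.HC
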