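import Pool.Agent.H37.HC.Rescue
import Pool.Agent.H37.HC.Exists
import Pool.Agent.H37.LemmaE3
import Pool.Agent.H37.Greedy

set_option autoImplicit false
set_option linter.unusedSectionVars false

/-!
The general embedding lemma.
-/

namespace Pool.Agent.H37.HC

open Finset
open Pool.Agent.H37 Pool.Agent.H37.Pot
open Pool.Agent.H37.Hard (nb mem_nb)

universe u v

/-- numerical part of the embedding lemma -/
lemma numF {C K δ κ ε1 a E1 E2 D N b dead x y r t1 t2 : ℝ} (hK : 0 < K)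
    (hD : 0 < D) (hN : 0 < N) (hδ : 0 < δ) (hκ : 0 < κ) (ha : 0 < a) (hE1 : 0 < E1) (hE2 : 0 < E2)
    (hb0 : 0 ≤ b) (hb : b ≤ K * D) (hdead : dead ≤ K * D * ε1)
    (hε1 : ε1 = δ * 3 / (64 * K * (κ + 1))) (hδ2 : δ = 3 / (256 * κ * K) / E2 ^ 2)
    (hE1' : Real.exp (-t1) = 1 / E1) (hE2' : Real.exp (-t2) = 1 / E2)
    (h3 : K * 64 * E1 / (3 * δ * a) * D ≤ N) (h4 : 64 * K ^ 2 * E1 ^ 2 / (3 * δ * a ^ 2) * D ≤ N)
    (hr : 3 / 16 * D ≤ r)
    (hxy : κ * x + y ≤ κ * b * ((1 + 1) / (1 + 1 / δ * Real.exp (-t2))) ^ 2 +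
      (b / (1 + 1 / D * (a * N) * Real.exp (-t1)) +
        b ^ 2 * N / (a * N * Real.exp (-t1)) ^ 2)) (_hC : 0 < C) :
    κ * (dead + x) + (dead + y) ≤ δ * r := by
  rw [hE1', hE2'] at hxy
  have q1 : (κ + 1) * dead ≤ δ * 3 / 64 * D := by
    calc (κ + 1) * dead ≤ (κ + 1) * (K * D * ε1) := mul_le_mul_of_nonneg_left hdead (by linarith)
      _ = δ * 3 / 64 * D := by rw [hε1]; field_simp
  have q2 : κ * b * ((1 + 1) / (1 + 1 / δ * (1 / E2))) ^ 2 ≤ δ * 3 / 64 * D := by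
    have h1 : (1 + 1) / (1 + 1 / δ * (1 / E2)) ≤ 2 * δ * E2 := by
      have h0 : 0 < 1 / δ * (1 / E2) := by positivity
      rw [div_le_iff₀ (by linarith)]
      have h2 : 2 * δ * E2 * (1 + 1 / δ * (1 / E2)) = 2 * δ * E2 + 2 := by field_simp
      rw [h2]
      have : 0 < 2 * δ * E2 := by positivity
      linarith
    have h0 : 0 ≤ (1 + 1) / (1 + 1 / δ * (1 / E2)) := by positivity
    calc κ * b * ((1 + 1) / (1 + 1 / δ * (1 / E2))) ^ 2 ≤ κ * b * (2 * δ * E2) ^ 2 := by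
          apply mul_le_mul_of_nonneg_left _ (by positivity)
          exact pow_le_pow_left₀ h0 h1 2
      _ ≤ κ * (K * D) * (2 * δ * E2) ^ 2 := by
          apply mul_le_mul_of_nonneg_right _ (by positivity)
          exact mul_le_mul_of_nonneg_left hb hκ.le
      _ = δ * (4 * κ * K * D * (δ * E2 ^ 2)) := by ring
      _ = δ * 3 / 64 * D := by
          have : δ * E2 ^ 2 = 3 / (256 * κ * K) := by rw [hδ2]; field_simp
          rw [this]; field_simp; ring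
  have q3 : b / (1 + 1 / D * (a * N) * (1 / E1)) ≤ δ * 3 / 64 * D := by
    have h0 : 0 < 1 / D * (a * N) * (1 / E1) := by positivity
    rw [div_le_iff₀ (by linarith)]
    have h1 : K * D ≤ δ * 3 / 64 * D * (1 / D * (a * N) * (1 / E1)) := by
      have h2 : δ * 3 / 64 * D * (1 / D * (a * N) * (1 / E1)) = (3 * δ * a) * N / (64 * E1) := by
        field_simp
      rw [h2, le_div_iff₀ (by positivity)]
      rw [div_mul_eq_mul_div, div_le_iff₀ (by positivity)] at h3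
      linarith
    have h5 : 0 ≤ δ * 3 / 64 * D := by positivity
    calc b ≤ K * D := hb
      _ ≤ δ * 3 / 64 * D * (1 / D * (a * N) * (1 / E1)) := h1
      _ ≤ δ * 3 / 64 * D * (1 + 1 / D * (a * N) * (1 / E1)) :=
          mul_le_mul_of_nonneg_left (by linarith) h5
  have q4 : b ^ 2 * N / (a * N * (1 / E1)) ^ 2 ≤ δ * 3 / 64 * D := by
    rw [div_le_iff₀ (by positivity)]
    have h1 : b ^ 2 ≤ (K * D) ^ 2 := pow_le_pow_left₀ hb0 hb 2
    have h2 : δ * 3 / 64 * D * (a * N * (1 / E1)) ^ 2 = (3 * δ * a ^ 2 * N) * (D * N) / (64 * E1 ^ 2) := by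
      field_simp
    rw [h2, le_div_iff₀ (by positivity)]
    rw [div_mul_eq_mul_div, div_le_iff₀ (by positivity)] at h4
    calc b ^ 2 * N * (64 * E1 ^ 2) ≤ (K * D) ^ 2 * N * (64 * E1 ^ 2) := by
          apply mul_le_mul_of_nonneg_right _ (by positivity)
          exact mul_le_mul_of_nonneg_right h1 hN.le
      _ = (64 * K ^ 2 * E1 ^ 2 * D) * (D * N) := by ring
      _ ≤ (N * (3 * δ * a ^ 2)) * (D * N) := mul_le_mul_of_nonneg_right h4 (by positivity)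
      _ = (3 * δ * a ^ 2 * N) * (D * N) := by ring
  have q5 : δ * (3 / 16 * D) ≤ δ * r := mul_le_mul_of_nonneg_left hr hδ.le
  linarith

theorem lemmaF {C K : ℝ} (hC : 0 < C) (hK : 0 < K) :
    ∃ C0 : ℝ, 0 < C0 ∧ ∀ (W : Type u) (U : Type v) [Fintype W] [Fintype U] [DecidableEq W]
      [DecidableEq U] (G : SimpleGraph W) (T : SimpleGraph U) (D : ℕ) (I : Finset U)
      (A S : Finset W),
      (∀ u a b, T.Adj u a → T.Adj u b → ¬ T.Adj a b) → (∀ x, (nb T x).card ≤ D) →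
      (∀ a ∈ I, ∀ b ∈ I, ¬ T.Adj a b) → I.card = D → C0 ≤ D →
      C0 * D ≤ (Fintype.card U : ℝ) →
      S ⊆ A → (S.card : ℝ) ≤ 1 / 4 * D → (A.card : ℝ) ≤ K * D →
      (∀ w ∈ A \ S, ((nb G w ∩ A).card : ℝ) * D ≤ C * (Fintype.card U : ℝ)) →
      EmbOn G T A := by
  classical
  obtain ⟨κ, hκ⟩ : ∃ κ : ℝ, κ = 1 + 3 * C := ⟨_, rfl⟩
  have hκ0 : 0 < κ := by rw [hκ]; positivity
  obtain ⟨t2, ht2⟩ : ∃ t2 : ℝ, t2 = 3 * C := ⟨_, rfl⟩
  obtain ⟨E2, hE2⟩ : ∃ E2 : ℝ, E2 = Real.exp t2 := ⟨_, rfl⟩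
  have hE20 : 0 < E2 := by rw [hE2]; exact Real.exp_pos _
  have hE21 : 1 ≤ E2 := by rw [hE2, ht2]; exact Real.one_le_exp (by positivity)
  obtain ⟨δ, hδ⟩ : ∃ δ : ℝ, δ = 3 / (256 * κ * K) / E2 ^ 2 := ⟨_, rfl⟩
  have hδ0 : 0 < δ := by rw [hδ]; positivity
  obtain ⟨ε1, hε1⟩ : ∃ ε1 : ℝ, ε1 = δ * 3 / (64 * K * (κ + 1)) := ⟨_, rfl⟩
  have hε10 : 0 < ε1 := by rw [hε1]; positivity
  obtain ⟨Γ, hΓ⟩ : ∃ Γ : ℝ, Γ = 16 * C / (1 / 4 * (3 / 4)) := ⟨_, rfl⟩
  obtain ⟨a, ha⟩ : ∃ a : ℝ, a = ε1 * ((1 / 4) / 2) * Real.exp (-Γ) := ⟨_, rfl⟩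
  have ha0 : 0 < a := by rw [ha]; positivity
  obtain ⟨t1, ht1⟩ : ∃ t1 : ℝ, t1 = 6 * C / a := ⟨_, rfl⟩
  have ht10 : 0 ≤ t1 := by rw [ht1]; positivity
  obtain ⟨E1, hE1⟩ : ∃ E1 : ℝ, E1 = Real.exp t1 := ⟨_, rfl⟩
  have hE10 : 0 < E1 := by rw [hE1]; exact Real.exp_pos _
  refine ⟨80 + 6 + 2 / a + 5 / 4 / δ + K * 64 * E1 / (3 * δ * a) +
    64 * K ^ 2 * E1 ^ 2 / (3 * δ * a ^ 2), by positivity, ?_⟩
  intro W U _ _ _ _ G T D I A S hT hD hI hIc hC0D hC0N hSA hSc hAc hdeg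
  by_cases hAD : A.card ≤ I.card
  · by_cases hU' : Nonempty U
    · exact embOn_of_card_le hI A hAD
    · exfalso
      have hU0 : (Fintype.card U : ℝ) = 0 := by
        have := Fintype.card_eq_zero_iff.2 (not_nonempty_iff.1 hU')
        exact_mod_cast this
      rw [hU0] at hC0N
      have q1 : 0 < 2 / a := by positivity
      have q2 : 0 < 5 / 4 / δ := by positivity
      have q3 : 0 < K * 64 * E1 / (3 * δ * a) := by positivity
      have q4 : 0 < 64 * K ^ 2 * E1 ^ 2 / (3 * δ * a ^ 2) := by positivity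
      have hDr : (0 : ℝ) < D := by linarith
      have := mul_pos (by linarith : 0 < 80 + 6 + 2 / a + 5 / 4 / δ + K * 64 * E1 / (3 * δ * a) +
        64 * K ^ 2 * E1 ^ 2 / (3 * δ * a ^ 2)) hDr
      linarith
  push Not at hAD
  obtain ⟨N, hN⟩ : ∃ N : ℝ, N = (Fintype.card U : ℝ) := ⟨_, rfl⟩
  rw [← hN] at hC0N
  simp only [← hN] at hdeg
  have q1 : 0 < 2 / a := by positivity
  have q2 : 0 < 5 / 4 / δ := by positivity
  have q3 : 0 < K * 64 * E1 / (3 * δ * a) := by positivity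
  have q4 : 0 < 64 * K ^ 2 * E1 ^ 2 / (3 * δ * a ^ 2) := by positivity
  have hDr : (0 : ℝ) < D := by linarith
  have hD0 : 0 < D := by exact_mod_cast hDr
  have hD6 : 6 ≤ (D : ℝ) := by linarith
  have hN1 : 80 * (D : ℝ) ≤ N := le_trans (mul_le_mul_of_nonneg_right (by linarith) hDr.le) hC0N
  have hN2' : 2 / a * D ≤ N := le_trans (mul_le_mul_of_nonneg_right (by linarith) hDr.le) hC0N
  have hN3' : 5 / 4 / δ * D ≤ N := le_trans (mul_le_mul_of_nonneg_right (by linarith) hDr.le) hC0N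
  have hN4 : K * 64 * E1 / (3 * δ * a) * D ≤ N :=
    le_trans (mul_le_mul_of_nonneg_right (by linarith) hDr.le) hC0N
  have hN5 : 64 * K ^ 2 * E1 ^ 2 / (3 * δ * a ^ 2) * D ≤ N :=
    le_trans (mul_le_mul_of_nonneg_right (by linarith) hDr.le) hC0N
  have hN2 : 2 * (D : ℝ) ≤ a * N := by
    rw [div_mul_eq_mul_div, div_le_iff₀ ha0] at hN2'; linarith
  have hN0 : 0 < N := by linarith
  have hU : Nonempty U := by
    rw [← Fintype.card_pos_iff]
    rw [hN] at hN0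
    exact_mod_cast hN0
  -- `K > 1`
  have hK1 : 1 < K := by
    have h1 : (D : ℝ) < A.card := by rw [← hIc]; exact_mod_cast hAD
    have h2 : 1 * (D : ℝ) < K * D := by linarith
    exact lt_of_mul_lt_mul_right h2 hDr.le
  have hδhalf : δ ≤ 1 / 2 := by
    rw [hδ, div_div, div_le_iff₀ (by positivity)]
    have h1 : 1 ≤ κ := by rw [hκ]; linarith
    have h2 : 1 ≤ κ * K := by nlinarith
    have h3 : 1 ≤ E2 ^ 2 := one_le_pow₀ hE21
    have h4 : 1 ≤ κ * K * E2 ^ 2 := by nlinarith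
    linarith
  -- the reserved set
  have hnD : ⌊3 / 4 * (D : ℝ) / 2⌋₊ ≤ I.card := by
    rw [hIc]
    apply Nat.floor_le_of_le
    linarith
  obtain ⟨R, hRI, hRc⟩ := Finset.exists_subset_card_eq hnD
  have hRc1 : (R.card : ℝ) ≤ 3 / 8 * D := by
    rw [hRc]
    have := Nat.floor_le (by positivity : 0 ≤ 3 / 4 * (D : ℝ) / 2)
    linarith
  have hRc2 : 3 / 16 * D ≤ (R.card : ℝ) := by
    rw [hRc]
    have := Nat.lt_floor_add_one (3 / 4 * (D : ℝ) / 2)
    linarith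
  have hRr : (0 : ℝ) < R.card := by linarith
  have hRpos : 0 < R.card := by exact_mod_cast hRr
  have hI0c : ((I \ R).card : ℝ) = D - R.card := by
    rw [Finset.card_sdiff_of_subset hRI, Nat.cast_sub (Finset.card_le_card hRI), hIc]
  have hI0D : (I \ R).card ≤ D := by
    rw [← hIc]; exact Finset.card_le_card Finset.sdiff_subset
  obtain ⟨V0, hV0c, hV0I, hV0R, hV0I0⟩ := exists_V0 T I R (I \ R) (D := D) hD hD0 (τ := 1 / 4)
    (by norm_num) (by norm_num) hIc.le hI0D hRpos (by rw [← hN]; norm_num; exact hN1)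
  rw [← hN] at hV0c
  simp only [← hN] at hV0R hV0I0
  -- placement of `S`
  obtain ⟨M, hM⟩ : ∃ M, M = A \ S := ⟨_, rfl⟩
  rw [← hM] at hdeg
  have hMA : M ⊆ A := by rw [hM]; exact Finset.sdiff_subset
  obtain ⟨p, hp⟩ : ∃ p : ℝ, p = (3 / 4) / 2 * D := ⟨_, rfl⟩
  obtain ⟨q, hq⟩ : ∃ q : ℝ, q = 4 / (1 / 4) * D ^ 2 / N := ⟨_, rfl⟩
  have hp0 : 0 < p := by rw [hp]; positivity
  have hq0 : 0 ≤ q := by rw [hq]; positivity
  have haN : 0 < a * N := by positivity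
  obtain ⟨φ, hφ1, hφ2, hφ3⟩ := exists_placement (G := G) (T := T) M (a0 := a * N) (p := p) (q := q)
    (D := D) hq0 hp0 haN hN2 hD S (I \ R) (by rw [hI0c, hp]; linarith) (fun _ => V0)
    (fun w _ u hu => by rw [hq]; exact hV0I0 u hu)
  obtain ⟨Λ, hΛ⟩ : ∃ Λ : W → Finset U, Λ = lst G T (fun _ => V0) S φ := ⟨_, rfl⟩
  rw [← hΛ] at hφ3
  have hdegmono : ∀ (w : W) (X : Finset W), X ⊆ A → w ∈ M → ((nb G w ∩ X).card : ℝ) * D ≤ C * N := by
    intro w X hX hw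
    refine le_trans ?_ (hdeg w hw)
    apply mul_le_mul_of_nonneg_right _ hDr.le
    exact_mod_cast Finset.card_le_card (Finset.inter_subset_inter_left hX)
  -- dead vertices
  obtain ⟨dead, hdead⟩ : ∃ dead, dead = M.filter (fun w => ((Λ w).card : ℝ) < a * N) := ⟨_, rfl⟩
  have hdeadM : dead ⊆ M := by rw [hdead]; exact Finset.filter_subset _ _
  have hMc : (M.card : ℝ) ≤ K * D := le_trans (by exact_mod_cast Finset.card_le_card hMA) hAc
  have hdeadc : (dead.card : ℝ) ≤ K * D * ε1 := by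
    have h9 : (dead.card : ℝ) ≤ (M.card : ℝ) * ε1 := by
      rw [hdead]
      exact dead_bound M (fun w => ((Λ w).card : ℝ)) (fun w => (nb G w ∩ S).card) hDr hN0
        (τ := 1 / 4) (ρ := 3 / 4) (C := C) (by norm_num) (by norm_num) hε10 hΓ ha hp hq hV0c
        (fun w hw => hdegmono w S hSA hw) hφ3
    exact h9.trans (mul_le_mul_of_nonneg_right hMc hε10.le)
  -- the partial placement
  obtain ⟨B, hB⟩ : ∃ B, B = M \ dead := ⟨_, rfl⟩
  have hBM : B ⊆ M := by rw [hB]; exact Finset.sdiff_subset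
  have hBc : (B.card : ℝ) ≤ K * D := le_trans (by exact_mod_cast Finset.card_le_card hBM) hMc
  have hBlo : ∀ w ∈ B, a * N ≤ ((Λ w).card : ℝ) := by
    intro w hw
    rw [hB, Finset.mem_sdiff, hdead, Finset.mem_filter] at hw
    by_contra hcon
    push Not at hcon
    exact hw.2 ⟨hw.1, hcon⟩
  obtain ⟨θ, hθ⟩ : ∃ θ : ℝ, θ = 5 / 4 * D / N := ⟨_, rfl⟩
  have hθ0 : 0 ≤ θ := by rw [hθ]; positivity
  obtain ⟨dg, hdg⟩ : ∃ dg : ℝ, dg = C * N / D := ⟨_, rfl⟩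
  have hdg0 : 0 ≤ dg := by rw [hdg]; positivity
  have hdgθ : dg * θ = 5 / 4 * C := by rw [hdg, hθ]; field_simp
  have hdgle : ∀ (w : W) (X : Finset W), X ⊆ A → w ∈ M → ((nb G w ∩ X).card : ℝ) ≤ dg := by
    intro w X hX hw
    rw [hdg, le_div_iff₀ hDr]
    exact hdegmono w X hX hw
  have hΛV : ∀ w, ∀ v ∈ Λ w, v ∈ V0 := by
    intro w v hv
    rw [hΛ] at hv
    exact (mem_lst.1 hv).1
  have hVθ : ∀ v ∈ V0, ((nb T v ∩ R).card : ℝ) ≤ θ * R.card := by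
    intro v hv
    refine (hV0R v hv).trans (le_of_eq ?_)
    rw [hθ]; ring
  obtain ⟨P, hPB, Bad, hBadB, g, hg1, hg2, hg3, hg4, hg5⟩ := exists_good2 (G := G) (T := T) (Λ := Λ)
    (R := R) hT B (la := 1 / (D : ℝ)) (lr := 1 / (δ * R.card)) (by positivity) (by positivity) hD
    (Lo := a * N) (θ := θ) (sg := 1) (dg := dg) (t1 := t1) (t2 := t2) (δ := δ) (κ := κ) haN hθ0
    (by norm_num) ht10 hδ0.le hκ0.le hBlo (fun w _ v hv => hVθ v (hΛV w v hv))
    (by field_simp; exact le_refl _)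
    (by
      have h1 : 1 / (δ * (R.card : ℝ)) * (θ * R.card) = θ / δ := by field_simp
      rw [h1, div_le_one hδ0, hθ, div_le_iff₀ hN0]
      rw [div_mul_eq_mul_div, div_le_iff₀ hδ0] at hN3'
      linarith)
    (fun w hw => hdgle w B (hBM.trans hMA) (hBM hw))
    (by
      have h1 : (1 + 1) * (3 * dg * (D : ℝ)) = 6 * C * N := by rw [hdg]; field_simp; ring
      have h2 : t1 * (a * N) = 6 * C * N := by rw [ht1]; field_simp
      rw [h1, h2])
    (by rw [hdgθ, ht2]; linarith)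
  have hlr : 1 / (δ * (R.card : ℝ)) * (δ * R.card) = 1 := by field_simp
  have hlr2 : 1 / (δ * (R.card : ℝ)) * R.card = 1 / δ := by field_simp
  rw [hlr, hlr2, ← hN] at hg5
  have hfin := numF (C := C) (K := K) (δ := δ) (κ := κ) (ε1 := ε1) (a := a) (E1 := E1) (E2 := E2)
    (D := D) (N := N) (b := B.card) (dead := dead.card) (x := Bad.card)
    (y := ((B \ P).card : ℝ)) (r := R.card) (t1 := t1) (t2 := t2) hK hDr hN0 hδ0 hκ0 ha0 hE10 hE20
    (Nat.cast_nonneg _) hBc hdeadc hε1 hδ (by rw [Real.exp_neg, hE1]; ring)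
    (by rw [Real.exp_neg, hE2]; ring) hN4 hN5 hRc2 hg5 hC
  -- rescue
  obtain ⟨X0, hX0⟩ : ∃ X0, X0 = dead ∪ Bad := ⟨_, rfl⟩
  have hX0M : X0 ⊆ M := by
    rw [hX0]; exact Finset.union_subset hdeadM (hBadB.trans hBM)
  have hX0c : (X0.card : ℝ) ≤ dead.card + Bad.card := by
    rw [hX0]; exact_mod_cast Finset.card_union_le _ _
  have hMPc : ((M \ P).card : ℝ) ≤ dead.card + ((B \ P).card : ℝ) := by
    have h1 : M \ P ⊆ dead ∪ (B \ P) := by
      intro w hw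
      rw [Finset.mem_sdiff] at hw
      rw [Finset.mem_union, Finset.mem_sdiff, hB, Finset.mem_sdiff]
      tauto
    exact_mod_cast (Finset.card_le_card h1).trans (Finset.card_union_le _ _)
  have hκ2 : 1 + 2 * dg * θ ≤ κ := by
    rw [mul_assoc, hdgθ, hκ]; linarith
  obtain ⟨P', hP'P, h, hh1, hh2, hh3⟩ := rescue (G := G) (T := T) (M := M) (P := P) (X0 := X0)
    (R := R) (g := g) (θ := θ) (dg := dg) (δ := δ) hθ0 hdg0 hδhalf
    (by
      intro w hw hwX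
      have hwB : w ∈ B := by
        rw [hB, Finset.mem_sdiff]
        refine ⟨hw, fun h => hwX ?_⟩
        rw [hX0]; exact Finset.mem_union_left _ h
      exact hg4 w hwB (fun h => hwX (by rw [hX0]; exact Finset.mem_union_right _ h)))
    (fun y hy => hVθ _ (hΛV y _ (hg2 y hy)))
    (fun w hw => hdgle w P ((hPB.trans hBM).trans hMA) (hX0M hw))
    (by
      have h1 : (0 : ℝ) ≤ X0.card := by positivity
      have h2 : (1 + 2 * dg * θ) * (X0.card : ℝ) ≤ κ * (dead.card + Bad.card) :=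
        calc (1 + 2 * dg * θ) * (X0.card : ℝ) ≤ κ * (X0.card : ℝ) :=
              mul_le_mul_of_nonneg_right hκ2 h1
          _ ≤ κ * (dead.card + Bad.card) := mul_le_mul_of_nonneg_left hX0c hκ0.le
      linarith)
  rw [hΛ] at hg2
  rw [hM] at hh1 hh2 hh3 hBM
  exact glue hI hRI hV0I φ g h hφ1 hφ2 (hg1.mono (by exact_mod_cast hP'P))
    (fun w hw => (mem_lst.1 (hg2 w (hP'P hw))).1)
    (fun w hw => (mem_lst.1 (hg2 w (hP'P hw))).2)
    (fun w hw w' hw' => hg3 w (hP'P hw) w' (hP'P hw')) hh1 hh2 hh3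
    (fun w hw => (Finset.mem_sdiff.1 (hBM (hPB (hP'P hw)))).2)

end Pool.Agent.H37.HC
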