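import Pool.Agent.H37.HC.LemmaF
import Pool.Agent.H37.Split

set_option autoImplicit false
set_option linter.unusedSectionVars false

/-!
`R(3, G) ≤ k + ε m` for all graphs with at least `K(ε) k` edges.
-/

namespace Pool.Agent.H37.HC

open Finset
open Pool.Agent.H37
open Pool.Agent.H37.Hard (nb mem_nb)

universe u v

/-- the embedding theorem in terms of finsets -/
theorem main_eps {ε : ℝ} (hε : 0 < ε) : ∃ K : ℕ, ∀ (W : Type u) (U : Type v) [Fintype W]
    [Fintype U] [DecidableEq W] [DecidableEq U] [Nonempty U] (G : SimpleGraph W)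
    (T : SimpleGraph U),
    (∀ u a b, T.Adj u a → T.Adj u b → ¬ T.Adj a b) →
    (Fintype.card W : ℝ) + ε * (G.edgeSet.ncard : ℝ) ≤ (Fintype.card U : ℝ) →
    K * Fintype.card W ≤ G.edgeSet.ncard → EmbOn G T Finset.univ := by
  classical
  obtain ⟨C0, hC0, hF⟩ := lemmaF.{u, v} (C := 8 / ε) (K := 2 / ε) (by positivity) (by positivity)
  refine ⟨⌈2 * C0 / ε ^ 2⌉₊ + ⌈C0 / ε⌉₊ + 1, ?_⟩
  intro W U _ _ _ _ _ G T hT hN hm
  obtain ⟨m, hmdef⟩ : ∃ m, m = G.edgeSet.ncard := ⟨_, rfl⟩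
  rw [← hmdef] at hN hm
  obtain ⟨x0, _, hx0⟩ := Finset.exists_max_image (Finset.univ : Finset U) (fun x => (nb T x).card)
    Finset.univ_nonempty
  obtain ⟨D, hDdef⟩ : ∃ D, D = (nb T x0).card := ⟨_, rfl⟩
  rw [← hDdef] at hx0
  have hD : ∀ x, (nb T x).card ≤ D := fun x => hx0 x (Finset.mem_univ x)
  have hI : ∀ a ∈ nb T x0, ∀ b ∈ nb T x0, ¬ T.Adj a b :=
    fun a ha b hb => hT x0 a b (mem_nb.1 ha) (mem_nb.1 hb)
  by_cases hDk : Fintype.card W ≤ D
  · exact embOn_of_card_le hI Finset.univ (by rw [Finset.card_univ, ← hDdef]; exact hDk)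
  push Not at hDk
  have hWU : Fintype.card W ≤ Fintype.card U := by
    have h1 : (0 : ℝ) ≤ ε * (m : ℝ) := by positivity
    have h2 : (Fintype.card W : ℝ) ≤ (Fintype.card U : ℝ) := by linarith
    exact_mod_cast h2
  obtain ⟨n', hn'⟩ := Nat.exists_eq_add_of_le hWU
  apply emb_of_core hD (m := n') (by omega)
  intro A hAne hcore
  obtain ⟨v0, hv0⟩ := hAne
  have hNr : (Fintype.card U : ℝ) = (Fintype.card W : ℝ) + n' := by exact_mod_cast hn'
  have hn'm : ε * (m : ℝ) ≤ n' := by linarith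
  have hn'U : (n' : ℝ) ≤ (Fintype.card U : ℝ) := by
    have : (0 : ℝ) ≤ (Fintype.card W : ℝ) := by positivity
    linarith
  -- real quantities
  have hDpos : 0 < D := by
    rcases Nat.eq_zero_or_pos D with h | h
    · have := hcore v0 hv0
      rw [h] at this
      simp at this
    · exact h
  have hDr : (0 : ℝ) < D := by exact_mod_cast hDpos
  have hmr : ((⌈2 * C0 / ε ^ 2⌉₊ : ℝ) + (⌈C0 / ε⌉₊ : ℝ) + 1) * (Fintype.card W : ℝ) ≤ m := by
    exact_mod_cast hm
  have hDkr : (D : ℝ) ≤ (Fintype.card W : ℝ) := by exact_mod_cast hDk.le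
  have hc1 : 2 * C0 / ε ^ 2 ≤ (⌈2 * C0 / ε ^ 2⌉₊ : ℝ) := Nat.le_ceil _
  have hc2 : C0 / ε ≤ (⌈C0 / ε⌉₊ : ℝ) := Nat.le_ceil _
  have hp1 : 0 < 2 * C0 / ε ^ 2 := by positivity
  have hp2 : 0 < C0 / ε := by positivity
  have hmD : (2 * C0 / ε ^ 2 + C0 / ε) * D ≤ m := by
    refine le_trans ?_ hmr
    apply mul_le_mul _ hDkr hDr.le (by positivity)
    linarith
  have hmpos : (0 : ℝ) < m := lt_of_lt_of_le (by positivity) hmD
  have hn'pos : (0 : ℝ) < n' := lt_of_lt_of_le (by positivity) hn'm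
  have hcore' : ∀ v ∈ A, (n' : ℝ) / D < ((nb G v ∩ A).card : ℝ) := by
    intro v hv
    rw [div_lt_iff₀ hDr]
    exact_mod_cast hcore v hv
  have hdd : (dd G A : ℝ) ≤ 2 * m := by
    rw [hmdef]; exact_mod_cast dd_le G A
  have hddA : ∑ v ∈ A, ((nb G v ∩ A).card : ℝ) = (dd G A : ℝ) := by unfold dd; push_cast; rfl
  have hA2 : (A.card : ℝ) ≤ 2 / ε * D := by
    have h1 : ∑ v ∈ A, (n' : ℝ) / D ≤ ∑ v ∈ A, ((nb G v ∩ A).card : ℝ) :=
      Finset.sum_le_sum (fun v hv => (hcore' v hv).le)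
    rw [Finset.sum_const, nsmul_eq_mul, hddA] at h1
    have h2 : (A.card : ℝ) * ((n' : ℝ) / D) ≤ (2 / ε * D) * ((n' : ℝ) / D) := by
      have h3 : (2 / ε * D) * ((n' : ℝ) / D) = 2 / ε * n' := by field_simp
      rw [h3]
      have h4 : 2 * (m : ℝ) ≤ 2 / ε * n' := by
        rw [div_mul_eq_mul_div, le_div_iff₀ hε]; linarith
      linarith
    exact le_of_mul_le_mul_right h2 (by positivity)
  have hDbig : C0 ≤ (D : ℝ) := by
    have h1 := hcore' v0 hv0
    have h2 : ((nb G v0 ∩ A).card : ℝ) ≤ A.card := by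
      exact_mod_cast Finset.card_le_card Finset.inter_subset_right
    have h3 : (n' : ℝ) / D ≤ 2 / ε * D := by linarith
    have h4 : 2 * C0 / ε ≤ (n' : ℝ) / D := by
      rw [le_div_iff₀ hDr]
      calc 2 * C0 / ε * D = ε * (2 * C0 / ε ^ 2 * D) := by field_simp
        _ ≤ ε * m := by
            apply mul_le_mul_of_nonneg_left _ hε.le
            have : 0 ≤ C0 / ε * D := by positivity
            linarith
        _ ≤ n' := hn'm
    have h5 : 2 * C0 / ε ≤ 2 / ε * D := h4.trans h3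
    have h6 : 2 / ε * C0 ≤ 2 / ε * D := by
      calc 2 / ε * C0 = 2 * C0 / ε := by ring
        _ ≤ 2 / ε * D := h5
    exact le_of_mul_le_mul_left h6 (by positivity)
  have hNbig : C0 * D ≤ (Fintype.card U : ℝ) := by
    refine le_trans ?_ hn'U
    calc C0 * D = ε * (C0 / ε * D) := by field_simp
      _ ≤ ε * m := by
          apply mul_le_mul_of_nonneg_left _ hε.le
          have : 0 ≤ 2 * C0 / ε ^ 2 * D := by positivity
          linarith
      _ ≤ n' := hn'm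
  have hUpos : (0 : ℝ) < (Fintype.card U : ℝ) := lt_of_lt_of_le hn'pos hn'U
  -- the high degree vertices
  obtain ⟨S, hS⟩ : ∃ S, S = A.filter (fun w => 8 / ε * (Fintype.card U : ℝ) / D <
    ((nb G w ∩ A).card : ℝ)) := ⟨_, rfl⟩
  have hSA : S ⊆ A := by rw [hS]; exact Finset.filter_subset _ _
  have hSc : (S.card : ℝ) ≤ 1 / 4 * D := by
    have h1 := markov_deg G A (x := 8 / ε * (Fintype.card U : ℝ) / D)
    rw [← hS] at h1
    have h2 : (S.card : ℝ) * (8 / ε * (Fintype.card U : ℝ) / D) ≤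
        (1 / 4 * D) * (8 / ε * (Fintype.card U : ℝ) / D) := by
      have h3 : (1 / 4 * (D : ℝ)) * (8 / ε * (Fintype.card U : ℝ) / D) =
          2 / ε * (Fintype.card U : ℝ) := by field_simp; ring
      rw [h3]
      have h4 : 2 * (m : ℝ) ≤ 2 / ε * (Fintype.card U : ℝ) := by
        rw [div_mul_eq_mul_div, le_div_iff₀ hε]; linarith
      linarith
    exact le_of_mul_le_mul_right h2 (by positivity)
  apply hF W U G T D (nb T x0) A S hT hD hI hDdef.symm hDbig hNbig hSA hSc hA2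
  intro w hw
  rw [Finset.mem_sdiff, hS, Finset.mem_filter] at hw
  have h1 : ¬ 8 / ε * (Fintype.card U : ℝ) / D < ((nb G w ∩ A).card : ℝ) := fun h => hw.2 ⟨hw.1, h⟩
  push Not at h1
  rwa [le_div_iff₀ hDr] at h1

end Pool.Agent.H37.HC
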