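import Pool.Agent.H37.HC.Local
import Pool.Agent.H37.HardCore4

set_option autoImplicit false
set_option linter.unusedSectionVars false

/-!
Ratios of partition functions.
-/

namespace Pool.Agent.H37.HC

open Finset
open Pool.Agent.H37.Hard (nb mem_nb conf mem_conf avail mem_avail blk mem_blk avail_eq_filter)

variable {W U : Type*} [Fintype W] [Fintype U] [DecidableEq W] [DecidableEq U]
variable {G : SimpleGraph W} {T : SimpleGraph U} {L : W → Finset U} {l : W → ℝ}

lemma sum_blk_le {B : Finset W} {f : W → Option U} (hf : f ∈ conf G T L B) {h : ℝ} (h0 : 0 ≤ h)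
    (w : W) (hh : ∀ y ∈ nb G w ∩ B, ∀ v ∈ L y, ((nb T v ∩ L w).card : ℝ) ≤ h) :
    ∑ u ∈ L w, ((blk G T f w u).card : ℝ) ≤ (nb G w ∩ B).card * h := by
  classical
  have h1 : ∀ u, ((blk G T f w u).card : ℝ) =
      ∑ y ∈ nb G w ∩ B, (if ∃ u', f y = some u' ∧ T.Adj u' u then (1 : ℝ) else 0) := by
    intro u
    have h2 : (blk G T f w u).card =
        ∑ y ∈ nb G w ∩ B, (if ∃ u', f y = some u' ∧ T.Adj u' u then 1 else 0) := by
      rw [← Finset.card_filter]
      congr 1
      ext y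
      rw [mem_blk, Finset.mem_filter, Finset.mem_inter, mem_nb]
      constructor
      · rintro ⟨h1, v, hv, hT⟩
        refine ⟨⟨h1, ?_⟩, v, hv, hT⟩
        by_contra hcon
        rw [(mem_conf.1 hf).1 y hcon] at hv
        simp at hv
      · rintro ⟨⟨h1, _⟩, h2⟩
        exact ⟨h1, h2⟩
    rw [h2]
    push_cast
    rfl
  rw [Finset.sum_congr rfl (fun u _ => h1 u), Finset.sum_comm]
  calc ∑ y ∈ nb G w ∩ B, ∑ u ∈ L w, (if ∃ u', f y = some u' ∧ T.Adj u' u then (1 : ℝ) else 0)
      ≤ ∑ y ∈ nb G w ∩ B, h := by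
        apply Finset.sum_le_sum
        intro y hyB
        cases hy : f y with
        | none => simpa using h0
        | some v =>
          refine le_trans ?_ (hh y hyB v ((mem_conf.1 hf).2.1 y v hy))
          have h3 : ∑ u ∈ L w, (if ∃ u', (some v : Option U) = some u' ∧ T.Adj u' u then (1 : ℝ)
              else 0) = (((L w).filter (fun u => ∃ u', (some v : Option U) = some u' ∧
                T.Adj u' u)).card : ℝ) := by
            rw [Finset.card_filter]; push_cast; rfl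
          rw [h3]
          have hsub : (L w).filter (fun u => ∃ u', (some v : Option U) = some u' ∧ T.Adj u' u) ⊆
              nb T v ∩ L w := by
            intro u hu
            rw [Finset.mem_filter] at hu
            obtain ⟨huL, v', hv', hT⟩ := hu
            simp at hv'
            subst hv'
            exact Finset.mem_inter.2 ⟨mem_nb.2 hT, huL⟩
          exact_mod_cast Finset.card_le_card hsub
    _ = (nb G w ∩ B).card * h := by rw [Finset.sum_const, nsmul_eq_mul]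

lemma avail_sum (hT : ∀ u a b, T.Adj u a → T.Adj u b → ¬ T.Adj a b) {B : Finset W}
    (hl : ∀ w, 0 < l w) {sg h t : ℝ} (hsg : 0 ≤ sg) (h0 : 0 ≤ h) (w : W)
    (hdeg : ∀ u ∈ L w, ∀ y ∈ nb G w ∩ B, l y * (((nb T u) ∩ L y).card : ℝ) ≤ sg)
    (hh : ∀ y ∈ nb G w ∩ B, ∀ v ∈ L y, ((nb T v ∩ L w).card : ℝ) ≤ h)
    (ht : (1 + sg) * (((nb G w ∩ B).card : ℝ) * h) ≤ t * ((L w).card : ℝ)) :
    Real.exp (-t) * ((L w).card : ℝ) * Z G T L l B ≤
      ∑ f ∈ conf G T L B, wt l f * ((avail G T L f w).card : ℝ) := by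
  have h1 : ∑ f ∈ conf G T L B, wt l f * ((avail G T L f w).card : ℝ) =
      ∑ u ∈ L w, ∑ f ∈ conf G T L B, (if blk G T f w u = ∅ then wt l f else 0) := by
    rw [Finset.sum_comm]
    apply Finset.sum_congr rfl
    intro f _
    rw [avail_eq_filter, Finset.card_filter]
    push_cast
    rw [Finset.mul_sum]
    apply Finset.sum_congr rfl
    intro u _
    split_ifs <;> simp
  rw [h1]
  have h2 : ∑ u ∈ L w, Real.exp (-t) * ∑ i ∈ conf G T L B,
        wt l i * (1 + t - (1 + sg) * ((blk G T i w u).card : ℝ)) ≤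
      ∑ u ∈ L w, ∑ f ∈ conf G T L B, (if blk G T f w u = ∅ then wt l f else 0) := by
    apply Finset.sum_le_sum
    intro u hu
    exact local_ineq hT hl w (hdeg u hu)
  refine le_trans ?_ h2
  rw [← Finset.mul_sum, Finset.sum_comm, mul_assoc]
  apply mul_le_mul_of_nonneg_left _ (Real.exp_pos _).le
  unfold Z
  rw [Finset.mul_sum]
  apply Finset.sum_le_sum
  intro f hf
  rw [← Finset.mul_sum, mul_comm]
  apply mul_le_mul_of_nonneg_left _ (wt_nonneg hl f)
  rw [Finset.sum_sub_distrib, Finset.sum_const, nsmul_eq_mul, ← Finset.mul_sum]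
  have h3 := sum_blk_le hf h0 w hh
  have h4 : (0 : ℝ) ≤ 1 + sg := by linarith
  have h5 := mul_le_mul_of_nonneg_left h3 h4
  linarith

lemma Z_ratio (hT : ∀ u a b, T.Adj u a → T.Adj u b → ¬ T.Adj a b) {B : Finset W}
    (hl : ∀ w, 0 < l w) {sg h t : ℝ} (hsg : 0 ≤ sg) (h0 : 0 ≤ h) {w : W} (hw : w ∉ B)
    (hdeg : ∀ u ∈ L w, ∀ y ∈ nb G w ∩ B, l y * (((nb T u) ∩ L y).card : ℝ) ≤ sg)
    (hh : ∀ y ∈ nb G w ∩ B, ∀ v ∈ L y, ((nb T v ∩ L w).card : ℝ) ≤ h)
    (ht : (1 + sg) * (((nb G w ∩ B).card : ℝ) * h) ≤ t * ((L w).card : ℝ)) :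
    Z G T L l B * (1 + l w * ((L w).card : ℝ) * Real.exp (-t)) ≤ Z G T L l (insert w B) := by
  rw [Z_insert hl hw]
  have h2 := avail_sum hT hl hsg h0 w hdeg hh ht
  have h4 := mul_le_mul_of_nonneg_left h2 (hl w).le
  linarith

end Pool.Agent.H37.HC
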