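import Pool.Agent.H37.LemmaE2

set_option autoImplicit false
set_option linter.unusedSectionVars false

/-!
Rescue step with kick-outs: all bad and unplaced vertices are moved into the reserved set `R`.
-/

namespace Pool.Agent.H37.HC

open Finset
open Pool.Agent.H37
open Pool.Agent.H37.Hard (nb mem_nb)

variable {W U : Type*} [Fintype W] [Fintype U] [DecidableEq W] [DecidableEq U]

theorem rescue [Nonempty U] {G : SimpleGraph W} {T : SimpleGraph U} {M P X0 : Finset W}
    {R : Finset U} {g : W → U} {θ dg δ : ℝ}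
    (hθ : 0 ≤ θ) (hdg0 : 0 ≤ dg) (hδ : δ ≤ 1 / 2)
    (hQ : ∀ w ∈ M, w ∉ X0 → ∃ Q ⊆ R, δ * R.card ≤ (Q.card : ℝ) ∧
      ∀ r ∈ Q, ∀ y ∈ P, G.Adj w y → ¬ T.Adj (g y) r)
    (hPR : ∀ y ∈ P, ((nb T (g y) ∩ R).card : ℝ) ≤ θ * R.card)
    (hdg : ∀ w ∈ X0, ((nb G w ∩ P).card : ℝ) ≤ dg)
    (hsmall : (1 + 2 * dg * θ) * (X0.card : ℝ) + ((M \ P).card : ℝ) ≤ δ * R.card) :
    ∃ P' ⊆ P, ∃ h : W → U, Set.InjOn h ((M \ P' : Finset W) : Set W) ∧
      (∀ w ∈ M \ P', h w ∈ R) ∧ ∀ w ∈ M \ P', ∀ y ∈ P', G.Adj w y → ¬ T.Adj (g y) (h w) := by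
  classical
  have hRnn : (0 : ℝ) ≤ R.card := by positivity
  -- kicked sets
  set K : W → U → Finset W := fun w r => (nb G w ∩ P).filter (fun y => T.Adj (g y) r) with hK
  set Aw : W → Finset U := fun w => R.filter (fun r => ((K w r).card : ℝ) ≤ 2 * dg * θ) with hAw
  have hX0c : (X0.card : ℝ) ≤ R.card / 2 := by
    have h1 : (0 : ℝ) ≤ 2 * dg * θ := by positivity
    have h2 : (0 : ℝ) ≤ X0.card := by positivity
    have h3 : (0 : ℝ) ≤ ((M \ P).card : ℝ) := by positivity
    have h4 : δ * R.card ≤ 1 / 2 * R.card := mul_le_mul_of_nonneg_right hδ hRnn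
    nlinarith
  have hAwc : ∀ w ∈ X0, X0.card ≤ (Aw w).card := by
    intro w hw
    have h1 : ∑ r ∈ R, ((K w r).card : ℝ) ≤ dg * (θ * R.card) := by
      have h2 : ∑ r ∈ R, ((K w r).card : ℝ) = ∑ y ∈ nb G w ∩ P, ((nb T (g y) ∩ R).card : ℝ) := by
        have h3 : ∀ r, ((K w r).card : ℝ) = ∑ y ∈ nb G w ∩ P, (if T.Adj (g y) r then (1 : ℝ)
            else 0) := by
          intro r
          simp only [hK]
          rw [Finset.card_filter]; push_cast; rfl
        have h4 : ∀ y, ((nb T (g y) ∩ R).card : ℝ) = ∑ r ∈ R, (if T.Adj (g y) r then (1 : ℝ)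
            else 0) := by
          intro y
          have h5 : (nb T (g y) ∩ R).card = ∑ r ∈ R, (if T.Adj (g y) r then 1 else 0) := by
            rw [← Finset.card_filter]
            congr 1
            ext r
            rw [Finset.mem_inter, Finset.mem_filter, mem_nb, and_comm]
          rw [h5]; push_cast; rfl
        rw [Finset.sum_congr rfl (fun r _ => h3 r), Finset.sum_congr rfl (fun y _ => h4 y)]
        exact Finset.sum_comm
      rw [h2]
      calc ∑ y ∈ nb G w ∩ P, ((nb T (g y) ∩ R).card : ℝ) ≤ ∑ y ∈ nb G w ∩ P, θ * R.card :=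
            Finset.sum_le_sum (fun y hy => hPR y (Finset.mem_inter.1 hy).2)
        _ = ((nb G w ∩ P).card : ℝ) * (θ * R.card) := by rw [Finset.sum_const, nsmul_eq_mul]
        _ ≤ dg * (θ * R.card) := mul_le_mul_of_nonneg_right (hdg w hw) (by positivity)
    have h6 : (R.card : ℝ) / 2 ≤ ((Aw w).card : ℝ) := by
      have h7 : ((R \ Aw w).card : ℝ) + ((Aw w).card : ℝ) = R.card := by
        exact_mod_cast Finset.card_sdiff_add_card_eq_card (Finset.filter_subset _ _)
      have h8 : ((R \ Aw w).card : ℝ) * (2 * dg * θ) ≤ dg * (θ * R.card) := by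
        refine le_trans ?_ h1
        calc ((R \ Aw w).card : ℝ) * (2 * dg * θ) = ∑ r ∈ R \ Aw w, (2 * dg * θ) := by
              rw [Finset.sum_const, nsmul_eq_mul]
          _ ≤ ∑ r ∈ R \ Aw w, ((K w r).card : ℝ) := by
              apply Finset.sum_le_sum
              intro r hr
              rw [Finset.mem_sdiff, hAw, Finset.mem_filter] at hr
              have : ¬ ((K w r).card : ℝ) ≤ 2 * dg * θ := fun h => hr.2 ⟨hr.1, h⟩
              push Not at this
              exact this.le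
          _ ≤ ∑ r ∈ R, ((K w r).card : ℝ) :=
              Finset.sum_le_sum_of_subset_of_nonneg Finset.sdiff_subset
                (fun _ _ _ => by positivity)
      rcases (by positivity : 0 ≤ dg * θ).eq_or_lt with h0 | h0
      · -- no kicks at all
        have h9 : R \ Aw w = ∅ := by
          rw [Finset.eq_empty_iff_forall_notMem]
          intro r hr
          have hrR := (Finset.mem_sdiff.1 hr).1
          have h10 : ((K w r).card : ℝ) ≤ 2 * dg * θ := by
            have h11 : ((K w r).card : ℝ) ≤ ∑ r ∈ R, ((K w r).card : ℝ) :=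
              Finset.single_le_sum (f := fun r => ((K w r).card : ℝ))
                (fun _ _ => by positivity) hrR
            have h12 : dg * (θ * (R.card : ℝ)) = 0 := by rw [← mul_assoc, ← h0, zero_mul]
            have h13 : 2 * dg * θ = 0 := by rw [mul_assoc, ← h0, mul_zero]
            linarith
          exact (Finset.mem_sdiff.1 hr).2 (by rw [hAw, Finset.mem_filter]; exact ⟨hrR, h10⟩)
        rw [h9] at h7
        simp at h7
        rw [h7]
        linarith
      · have h14 : ((R \ Aw w).card : ℝ) ≤ R.card / 2 := by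
          have h15 : ((R \ Aw w).card : ℝ) * 2 * (dg * θ) ≤ (R.card : ℝ) * (dg * θ) := by linarith
          have h16 := le_of_mul_le_mul_right h15 h0
          linarith
        linarith
    have h17 : (X0.card : ℝ) ≤ ((Aw w).card : ℝ) := hX0c.trans h6
    exact_mod_cast h17
  obtain ⟨h0, hh1, hh2⟩ := hall_greedy X0 Aw X0.card le_rfl hAwc
  set Kk : Finset W := X0.biUnion (fun w => K w (h0 w)) with hKk
  have hKkP : Kk ⊆ P := by
    intro y hy
    rw [hKk, Finset.mem_biUnion] at hy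
    obtain ⟨w, _, hy⟩ := hy
    exact (Finset.mem_inter.1 (Finset.mem_filter.1 hy).1).2
  have hKkc : (Kk.card : ℝ) ≤ 2 * dg * θ * X0.card := by
    have h1 : (Kk.card : ℝ) ≤ ∑ w ∈ X0, ((K w (h0 w)).card : ℝ) := by
      exact_mod_cast Finset.card_biUnion_le
    refine h1.trans ?_
    calc ∑ w ∈ X0, ((K w (h0 w)).card : ℝ) ≤ ∑ w ∈ X0, 2 * dg * θ :=
          Finset.sum_le_sum (fun w hw => (Finset.mem_filter.1 (hh2 w hw)).2)
      _ = 2 * dg * θ * X0.card := by rw [Finset.sum_const, nsmul_eq_mul]; ring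
  set P' := P \ (X0 ∪ Kk) with hP'
  set Y := (M \ P') \ X0 with hY
  have hYsub : Y ⊆ Kk ∪ (M \ P) := by
    intro w hw
    rw [hY, Finset.mem_sdiff, Finset.mem_sdiff, hP', Finset.mem_sdiff, Finset.mem_union] at hw
    rw [Finset.mem_union, Finset.mem_sdiff]
    tauto
  have hYc : (Y.card : ℝ) ≤ Kk.card + ((M \ P).card : ℝ) := by
    exact_mod_cast (Finset.card_le_card hYsub).trans (Finset.card_union_le _ _)
  have hch : ∀ w, ∃ Q : Finset U, (w ∈ Y → Q ⊆ R ∧ δ * R.card ≤ (Q.card : ℝ) ∧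
      ∀ r ∈ Q, ∀ y ∈ P, G.Adj w y → ¬ T.Adj (g y) r) := by
    intro w
    by_cases hw : w ∈ Y
    · have hw' := hw
      rw [hY, Finset.mem_sdiff, Finset.mem_sdiff] at hw'
      obtain ⟨Q, hQ1, hQ2, hQ3⟩ := hQ w hw'.1.1 hw'.2
      exact ⟨Q, fun _ => ⟨hQ1, hQ2, hQ3⟩⟩
    · exact ⟨∅, fun h => absurd h hw⟩
  choose Q hQs using hch
  set Bw : W → Finset U := fun w => Q w \ X0.image h0 with hBw
  have hBwc : ∀ w ∈ Y, Y.card ≤ (Bw w).card := by
    intro w hw
    obtain ⟨_, hQ2, _⟩ := hQs w hw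
    have h1 : ((Q w).card : ℝ) ≤ ((Bw w).card : ℝ) + X0.card := by
      have h2 : (Q w).card ≤ (Q w \ X0.image h0).card + (X0.image h0).card := by
        have := Finset.le_card_sdiff (X0.image h0) (Q w)
        omega
      have h3 : (X0.image h0).card ≤ X0.card := Finset.card_image_le
      have h4 : (Q w).card ≤ (Bw w).card + X0.card := by simp only [hBw]; omega
      exact_mod_cast h4
    have h5 : (Y.card : ℝ) ≤ ((Bw w).card : ℝ) := by linarith
    exact_mod_cast h5
  obtain ⟨h1, hg1, hg2⟩ := hall_greedy Y Bw Y.card le_rfl hBwc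
  set h : W → U := fun w => if w ∈ X0 then h0 w else h1 w with hh
  have hcase : ∀ w ∈ M \ P', (w ∈ X0 ∧ h w = h0 w) ∨ (w ∈ Y ∧ h w = h1 w) := by
    intro w hw
    by_cases hw0 : w ∈ X0
    · left; exact ⟨hw0, by simp only [hh]; rw [if_pos hw0]⟩
    · right
      refine ⟨?_, by simp only [hh]; rw [if_neg hw0]⟩
      rw [hY, Finset.mem_sdiff]; exact ⟨hw, hw0⟩
  refine ⟨P', Finset.sdiff_subset, h, ?_, ?_, ?_⟩
  · intro a ha b hb hab
    rw [Finset.mem_coe] at ha hb
    rcases hcase a ha with ⟨ha1, ha2⟩ | ⟨ha1, ha2⟩ <;> rcases hcase b hb with ⟨hb1, hb2⟩ | ⟨hb1, hb2⟩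
    · rw [ha2, hb2] at hab; exact hh1 ha1 hb1 hab
    · rw [ha2, hb2] at hab
      exact absurd (Finset.mem_image.2 ⟨a, ha1, hab⟩) (Finset.mem_sdiff.1 (hg2 b hb1)).2
    · rw [ha2, hb2] at hab
      exact absurd (Finset.mem_image.2 ⟨b, hb1, hab.symm⟩) (Finset.mem_sdiff.1 (hg2 a ha1)).2
    · rw [ha2, hb2] at hab; exact hg1 ha1 hb1 hab
  · intro w hw
    rcases hcase w hw with ⟨h2, h3⟩ | ⟨h2, h3⟩
    · rw [h3]; exact (Finset.mem_filter.1 (hh2 w h2)).1
    · rw [h3]; exact (hQs w h2).1 (Finset.mem_sdiff.1 (hg2 w h2)).1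
  · intro w hw y hy hadj hTa
    have hyP : y ∈ P := (Finset.mem_sdiff.1 hy).1
    rcases hcase w hw with ⟨h2, h3⟩ | ⟨h2, h3⟩
    · rw [h3] at hTa
      have : y ∈ Kk := by
        rw [hKk, Finset.mem_biUnion]
        refine ⟨w, h2, ?_⟩
        simp only [hK]
        rw [Finset.mem_filter, Finset.mem_inter, mem_nb]
        exact ⟨⟨hadj, hyP⟩, hTa⟩
      exact (Finset.mem_sdiff.1 hy).2 (Finset.mem_union_right _ this)
    · rw [h3] at hTa
      exact (hQs w h2).2.2 _ (Finset.mem_sdiff.1 (hg2 w h2)).1 y hyP hadj hTa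

end Pool.Agent.H37.HC
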